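import Pool.Agent.U151.FS.Wts

/-!
Weights on the lattice which come from a measure of finite energy.
-/

set_option autoImplicit false

namespace Pool.Agent.U151.BX

open H973 hiding SR
open H974 H12S H934E H934F Finset MeasureTheory TopologicalSpace Filter Topology
open Pool.Agent.U151.IP Pool.Agent.U151.FS
open scoped ENNReal NNReal

theorem stepW {α ι : Type*} [MeasurableSpace α] (ν : Measure α) (V : Finset ι) (D : ι → Set α)
    (hD : ∀ v ∈ V, MeasurableSet (D v)) (hdis : Set.PairwiseDisjoint (V : Set ι) D)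
    (c : ι → ℝ≥0∞) (g : α → ℝ≥0∞) (hcg : ∀ v ∈ V, ∀ z ∈ D v, c v ≤ g z) :
    ∑ v ∈ V, c v * ν (D v) ≤ ∫⁻ z, g z ∂ν := by
  calc ∑ v ∈ V, c v * ν (D v) = ∑ v ∈ V, ∫⁻ _ in D v, c v ∂ν := by
        refine Finset.sum_congr rfl fun v _ => ?_
        rw [setLIntegral_const]
    _ ≤ ∑ v ∈ V, ∫⁻ z in D v, g z ∂ν :=
        Finset.sum_le_sum fun v hv => setLIntegral_mono' (hD v hv) (hcg v hv)
    _ = ∫⁻ z in ⋃ v ∈ V, D v, g z ∂ν := (lintegral_biUnion_finset hdis hD g).symm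
    _ ≤ ∫⁻ z, g z ∂ν := setLIntegral_le_lintegral _ _

theorem cellsW (V : Finset Vtx) (B : Vtx → Set ℂ) (hB : ∀ v, MeasurableSet (B v)) :
    ∃ D : Vtx → Set ℂ, (∀ v, MeasurableSet (D v)) ∧ (∀ v, D v ⊆ B v) ∧
      Set.PairwiseDisjoint (V : Set Vtx) D ∧ (⋃ v ∈ V, B v) ⊆ ⋃ v ∈ V, D v := by
  classical
  set e : Vtx → ℕ := fun v => Encodable.encode v with he
  have hinj : Function.Injective e := Encodable.encode_injective
  refine ⟨fun v => B v \ ⋃ u ∈ V.filter (fun u => e u < e v), B u, ?_, ?_, ?_, ?_⟩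
  · intro v
    exact (hB v).diff (Finset.measurableSet_biUnion _ fun u _ => hB u)
  · intro v
    exact Set.sdiff_subset
  · intro u hu v hv huv
    rw [Function.onFun, Set.disjoint_left]
    rintro z ⟨h1, h2⟩ ⟨h3, h4⟩
    have hne : e u ≠ e v := fun h => huv (hinj h)
    rcases lt_or_gt_of_ne hne with h | h
    · exact h4 (Set.mem_iUnion₂.mpr ⟨u, Finset.mem_filter.mpr ⟨hu, h⟩, h1⟩)
    · exact h2 (Set.mem_iUnion₂.mpr ⟨v, Finset.mem_filter.mpr ⟨hv, h⟩, h3⟩)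
  · intro z hz
    obtain ⟨v0, hv0, hz0⟩ := Set.mem_iUnion₂.mp hz
    have hne : (V.filter (fun u => z ∈ B u)).Nonempty := ⟨v0, Finset.mem_filter.mpr ⟨hv0, hz0⟩⟩
    obtain ⟨v, hv, hmin⟩ := Finset.exists_min_image _ e hne
    rw [Finset.mem_filter] at hv
    refine Set.mem_iUnion₂.mpr ⟨v, hv.1, hv.2, ?_⟩
    intro hcon
    obtain ⟨u, hu, hzu⟩ := Set.mem_iUnion₂.mp hcon
    rw [Finset.mem_filter] at hu
    have := hmin u (Finset.mem_filter.mpr ⟨hu.1, hzu⟩)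
    omega

/-- Weights of finite energy. -/
theorem weights1 {a η M : ℝ} (ha : 0 ≤ a) {A : Set ℂ} {ν : Measure ℂ}
    [IsFiniteMeasure ν] (hν : ν ≠ 0) (hνA : ν Aᶜ = 0)
    (hE : ∫⁻ x, ∫⁻ y, edist x y ^ (-a) ∂ν ∂ν ≠ ∞)
    (hM : (4 * |η|) ^ a * (∫⁻ x, ∫⁻ y, edist x y ^ (-a) ∂ν ∂ν).toReal /
      ν.real Set.univ ^ 2 ≤ M) :
    ∀ (s : Bool × Bool) (X Y h : ℤ) (δ : ℝ), 1 ≤ h → 0 < δ → δ * h ≤ η →
      (∀ z ∈ A, ∃ v ∈ box X Y h, dist (t7_pt δ s v) z ≤ δ) →
      ∃ w : Vtx → ℝ, (∀ v, 0 ≤ w v) ∧ ∑ v ∈ box X Y h, w v = 1 ∧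
        IV a (box X Y h) w ≤ M * (h : ℝ) ^ (-a) ∧
        ∀ v ∈ box X Y h, w v ≠ 0 → ∃ z ∈ A, dist (t7_pt δ s v) z ≤ δ := by
  classical
  set m : ℝ := ν.real Set.univ with hm
  have hmpos : 0 < m := by
    rw [hm, measureReal_def]
    exact ENNReal.toReal_pos (by simpa using hν) (measure_ne_top _ _)
  set E : ℝ := (∫⁻ x, ∫⁻ y, edist x y ^ (-a) ∂ν ∂ν).toReal with hEd
  have hE0 : 0 ≤ E := ENNReal.toReal_nonneg
  intro s X Y h δ hh hδ hδh hnear
  have hh0 : (0:ℝ) < h := by exact_mod_cast (show (0:ℤ) < h by omega)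
  set V := box X Y h with hV
  obtain ⟨D, hDm, hDB, hdis, hcov⟩ := cellsW V (fun v => Metric.closedBall (t7_pt δ s v) δ)
    (fun v => Metric.isClosed_closedBall.measurableSet)
  have hAD : A ⊆ ⋃ v ∈ V, D v := by
    intro z hz
    apply hcov
    obtain ⟨v, hv, hd⟩ := hnear z hz
    refine Set.mem_iUnion₂.mpr ⟨v, hv, ?_⟩
    rw [Metric.mem_closedBall, dist_comm]
    exact hd
  have hsum : ∑ v ∈ V, ν.real (D v) = m := by
    have h1 : ν (⋃ v ∈ V, D v) = ν Set.univ := by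
      apply le_antisymm (measure_mono (Set.subset_univ _))
      calc ν Set.univ ≤ ν ((⋃ v ∈ V, D v) ∪ Aᶜ) := by
            apply measure_mono
            intro z _
            by_cases hz : z ∈ A
            · exact Or.inl (hAD hz)
            · exact Or.inr hz
        _ ≤ ν (⋃ v ∈ V, D v) + ν Aᶜ := measure_union_le _ _
        _ = ν (⋃ v ∈ V, D v) := by rw [hνA, add_zero]
    rw [measure_biUnion_finset hdis (fun v _ => hDm v)] at h1
    rw [hm, measureReal_def, ← h1, ENNReal.toReal_sum (fun v _ => measure_ne_top _ _)]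
    rfl
  -- the energy
  have hen : ∑ v ∈ V, ∑ x ∈ V, ν.real (D v) * ν.real (D x) *
      (4 * δ * ((max (nd v x) 1 : ℤ) : ℝ)) ^ (-a) ≤ E := by
    have key : ∑ v ∈ V, (∑ x ∈ V, ENNReal.ofReal (4 * δ * ((max (nd v x) 1 : ℤ) : ℝ)) ^ (-a) *
        ν (D x)) * ν (D v) ≤ ∫⁻ x, ∫⁻ y, edist x y ^ (-a) ∂ν ∂ν := by
      apply stepW ν V D (fun v _ => hDm v) hdis
      intro v hv z hz
      apply stepW ν V D (fun v _ => hDm v) hdis
      intro x hx z' hz'
      have h1 : dist z (t7_pt δ s v) ≤ δ := hDB v hz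
      have h2 : dist z' (t7_pt δ s x) ≤ δ := hDB x hz'
      have h3 := dist_le_nd hδ s v x
      have hmx := mx_pos (nd v x)
      have hm1 : (1 : ℝ) ≤ ((max (nd v x) 1 : ℤ) : ℝ) := by exact_mod_cast le_max_right (nd v x) 1
      have hm2 : ((nd v x : ℤ) : ℝ) ≤ ((max (nd v x) 1 : ℤ) : ℝ) := by
        exact_mod_cast le_max_left (nd v x) 1
      have h4 : dist z z' ≤ 4 * δ * ((max (nd v x) 1 : ℤ) : ℝ) := by
        have h5 := dist_triangle z (t7_pt δ s v) z'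
        have h6 := dist_triangle (t7_pt δ s v) (t7_pt δ s x) z'
        rw [dist_comm (t7_pt δ s x) z'] at h6
        have h7 : 2 * δ * ((nd v x : ℤ) : ℝ) ≤ 2 * δ * ((max (nd v x) 1 : ℤ) : ℝ) :=
          mul_le_mul_of_nonneg_left hm2 (by positivity)
        have h8 : 2 * δ * 1 ≤ 2 * δ * ((max (nd v x) 1 : ℤ) : ℝ) :=
          mul_le_mul_of_nonneg_left hm1 (by positivity)
        linarith
      have h9 : edist z z' ≤ ENNReal.ofReal (4 * δ * ((max (nd v x) 1 : ℤ) : ℝ)) := by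
        rw [edist_dist]
        exact ENNReal.ofReal_le_ofReal h4
      rw [ENNReal.rpow_neg, ENNReal.rpow_neg, ENNReal.inv_le_inv]
      exact ENNReal.rpow_le_rpow h9 ha
    rw [hEd]
    rw [← ENNReal.ofReal_le_iff_le_toReal hE]
    refine le_trans (le_of_eq ?_) key
    rw [ENNReal.ofReal_sum_of_nonneg (fun v _ => Finset.sum_nonneg fun x _ => by positivity)]
    refine Finset.sum_congr rfl fun v _ => ?_
    rw [ENNReal.ofReal_sum_of_nonneg (fun x _ => by positivity), Finset.sum_mul]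
    refine Finset.sum_congr rfl fun x _ => ?_
    have hmx := mx_pos (nd v x)
    rw [ENNReal.ofReal_mul (by positivity), ENNReal.ofReal_mul (by positivity),
      ENNReal.ofReal_rpow_of_pos (by positivity), ofReal_measureReal, ofReal_measureReal]
    ring
  refine ⟨fun v => ν.real (D v) / m, fun v => div_nonneg measureReal_nonneg hmpos.le, ?_, ?_, ?_⟩
  · rw [← Finset.sum_div, hsum, div_self hmpos.ne']
  · have e1 : IV a V (fun v => ν.real (D v) / m) = (4 * δ) ^ a / m ^ 2 *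
        ∑ v ∈ V, ∑ x ∈ V, ν.real (D v) * ν.real (D x) *
          (4 * δ * ((max (nd v x) 1 : ℤ) : ℝ)) ^ (-a) := by
      unfold IV
      rw [Finset.mul_sum]
      refine Finset.sum_congr rfl fun v _ => ?_
      rw [Finset.mul_sum]
      refine Finset.sum_congr rfl fun x _ => ?_
      have hmx := mx_pos (nd v x)
      rw [Real.mul_rpow (by positivity) hmx.le, Real.rpow_neg (show 0 ≤ 4 * δ by positivity) a]
      have : (4 * δ) ^ a ≠ 0 := (Real.rpow_pos_of_pos (by positivity) _).ne'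
      field_simp
    rw [e1]
    have i1 : (4 * δ) ^ a ≤ (4 * |η|) ^ a * (h : ℝ) ^ (-a) := by
      have i2 : (4 * δ) * h ≤ 4 * |η| := by
        have := le_abs_self η
        linarith
      have i3 : ((4 * δ) * h) ^ a ≤ (4 * |η|) ^ a :=
        Real.rpow_le_rpow (by positivity) i2 ha
      rw [Real.mul_rpow (by positivity) hh0.le] at i3
      rw [Real.rpow_neg hh0.le, ← div_eq_mul_inv, le_div_iff₀ (Real.rpow_pos_of_pos hh0 _)]
      exact i3
    have hhb : 0 < (h : ℝ) ^ (-a) := Real.rpow_pos_of_pos hh0 _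
    calc (4 * δ) ^ a / m ^ 2 * ∑ v ∈ V, ∑ x ∈ V, ν.real (D v) * ν.real (D x) *
          (4 * δ * ((max (nd v x) 1 : ℤ) : ℝ)) ^ (-a)
        ≤ (4 * δ) ^ a / m ^ 2 * E := mul_le_mul_of_nonneg_left hen (by positivity)
      _ ≤ ((4 * |η|) ^ a * (h : ℝ) ^ (-a)) / m ^ 2 * E := by gcongr
      _ = ((4 * |η|) ^ a * E / m ^ 2) * (h : ℝ) ^ (-a) := by ring
      _ ≤ _ := mul_le_mul_of_nonneg_right hM hhb.le
  · intro v hv hne
    have h1 : ν (D v) ≠ 0 := by
      intro h0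
      apply hne
      show ν.real (D v) / m = 0
      rw [measureReal_def, h0, ENNReal.toReal_zero, zero_div]
    have h2 : (D v ∩ A).Nonempty := by
      rw [Set.nonempty_iff_ne_empty]
      intro h0
      apply h1
      refine measure_mono_null ?_ hνA
      intro z hz hzA
      have : z ∈ D v ∩ A := ⟨hz, hzA⟩
      rw [h0] at this
      exact this
    obtain ⟨z, hz1, hz2⟩ := h2
    refine ⟨z, hz2, ?_⟩
    rw [dist_comm]
    exact hDB v hz1

/-- The energy of a measure on a small set. -/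
theorem energy_low {a r : ℝ} (ha : 0 ≤ a) (hr : 0 < r) {A : Set ℂ} (hA : MeasurableSet A)
    {ν : Measure ℂ} [IsFiniteMeasure ν] (hν : ν ≠ 0) (hνA : ν Aᶜ = 0)
    (hE : ∫⁻ x, ∫⁻ y, edist x y ^ (-a) ∂ν ∂ν ≠ ∞)
    (hd : ∀ x ∈ A, ∀ y ∈ A, dist x y ≤ r) :
    0 < (∫⁻ x, ∫⁻ y, edist x y ^ (-a) ∂ν ∂ν).toReal := by
  have h1 : ν A ≠ 0 := by
    intro h0
    apply hν
    rw [← Measure.measure_univ_eq_zero, ← measure_add_measure_compl hA, h0, hνA, add_zero]
  have key : ∑ _v ∈ ({0} : Finset (Fin 1)), (∑ _x ∈ ({0} : Finset (Fin 1)),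
      ENNReal.ofReal r ^ (-a) * ν A) * ν A ≤ ∫⁻ x, ∫⁻ y, edist x y ^ (-a) ∂ν ∂ν := by
    apply stepW ν ({0} : Finset (Fin 1)) (fun _ => A) (fun _ _ => hA)
    · simp
    intro v _ z hz
    apply stepW ν ({0} : Finset (Fin 1)) (fun _ => A) (fun _ _ => hA)
    · simp
    intro x _ z' hz'
    rw [ENNReal.rpow_neg, ENNReal.rpow_neg, ENNReal.inv_le_inv]
    apply ENNReal.rpow_le_rpow _ ha
    rw [edist_dist]
    exact ENNReal.ofReal_le_ofReal (hd z hz z' hz')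
  rw [Finset.sum_singleton, Finset.sum_singleton] at key
  refine ENNReal.toReal_pos ?_ hE
  refine (lt_of_lt_of_le ?_ key).ne'
  rw [pos_iff_ne_zero]
  refine mul_ne_zero (mul_ne_zero ?_ h1) h1
  rw [ENNReal.ofReal_rpow_of_pos hr]
  exact (ENNReal.ofReal_pos.mpr (Real.rpow_pos_of_pos hr _)).ne'

end Pool.Agent.U151.BX
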