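import Pool.Agent.U151.BX.Cap
import Pool.Agent.U151.BX.Wt1
import Pool.Agent.U151.IP.UpK

/-!
Hitting probabilities: lower bound by the capacity and upper bound by the Hausdorff content, with
constants which do not depend on the set and on the weak limit.
-/

set_option autoImplicit false

namespace Pool.Agent.U151.BX

open H973 hiding SR
open H974 H12S H934E H934F Finset MeasureTheory TopologicalSpace Filter Topology
open Pool.Agent.U151.IP Pool.Agent.U151.FS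
open scoped ENNReal NNReal

variable {k : ℕ}

/-- The energy of a measure. -/
noncomputable def en (a : ℝ) (ν : Measure ℂ) : ℝ≥0∞ := ∫⁻ x, ∫⁻ y, edist x y ^ (-a) ∂ν ∂ν

/-- The probability of common points in a small compact set. -/
theorem posQ1 (R : Rect) (k : ℕ) {η : ℝ} (hη : 0 < η) :
    ∃ c' : ℝ, 0 < c' ∧ ∀ (A : Set ℂ), IsCompact A → ∀ (ν : Measure ℂ), IsFiniteMeasure ν →
      ν ≠ 0 → ν Aᶜ = 0 → en ((k : ℝ) / 4) ν ≠ ∞ → ∀ z0 : ℂ,
      8 * η ≤ z0.re + R.A → 8 * η ≤ R.B - z0.re → 8 * η ≤ z0.im → 8 * η ≤ R.H - z0.im →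
      (∀ z ∈ A, dist z z0 ≤ η / 4) →
      0 < (en ((k : ℝ) / 4) ν).toReal ∧
      ∀ (δ : ℕ → ℝ) (hδ : ∀ i, 0 < δ i), Tendsto δ atTop (𝓝 0) →
      ∀ μ : ProbabilityMeasure (NonemptyCompacts ℂ),
      Tendsto (fun i => R.law (hδ i)) atTop (𝓝 μ) →
      Measure.pi (fun _ : Fin k => (μ : Measure (NonemptyCompacts ℂ)))
        {K | ¬ (A ∩ ⋂ i, (K i : Set ℂ)).Nonempty} ≤
          ENNReal.ofReal (1 - c' * (ν.real Set.univ ^ 2 / (en ((k : ℝ) / 4) ν).toReal)) := by
  have hk0 : (0:ℝ) ≤ (k : ℝ) / 4 := by positivity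
  obtain ⟨K, hK⟩ : ∃ K : ℕ, R.A + R.B ≤ 3 * K * η := by
    obtain ⟨K, hK⟩ := exists_nat_ge ((R.A + R.B) / (3 * η))
    refine ⟨K, ?_⟩
    rw [div_le_iff₀ (by positivity)] at hK
    linarith
  obtain ⟨s, c, C1, hc, hC1, h5⟩ := t5L
  have hg := gc_pos K
  set c2 : ℝ := (gc K * c) ^ k with hc2
  have hc2pos : 0 < c2 := by positivity
  have h4η : 0 < (4 * |η|) ^ ((k : ℝ) / 4) := Real.rpow_pos_of_pos (by positivity) _
  refine ⟨c2 ^ 2 / (8 * C1 ^ k * (4 * |η|) ^ ((k : ℝ) / 4)), by positivity, ?_⟩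
  intro A hA ν hfin hν hνA hE z0 h1 h2 h3 h4 hAz
  set E : ℝ := (en ((k : ℝ) / 4) ν).toReal with hEd
  have hEpos : 0 < E := by
    apply energy_low (A := A) hk0 (show (0:ℝ) < η / 2 by positivity)
      hA.isClosed.measurableSet hν hνA hE
    intro x hx y hy
    have i1 := hAz x hx
    have i2 := hAz y hy
    rw [dist_comm y z0] at i2
    have i3 := dist_triangle x z0 y
    linarith
  refine ⟨hEpos, ?_⟩
  set m : ℝ := ν.real Set.univ with hm
  have hmpos : 0 < m := by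
    rw [hm, measureReal_def]
    exact ENNReal.toReal_pos (by simpa using hν) (measure_ne_top _ _)
  set M : ℝ := (4 * |η|) ^ ((k : ℝ) / 4) * E / m ^ 2 with hM
  have hMpos : 0 < M := by positivity
  have hW := weights1 (η := η) (M := M) hk0 hν hνA hE le_rfl
  set q : ℝ := c2 ^ 2 / (8 * C1 ^ k * M) with hq
  have hqpos : 0 < q := by positivity
  have hqe : c2 ^ 2 / (8 * C1 ^ k * (4 * |η|) ^ ((k : ℝ) / 4)) * (m ^ 2 / E) = q := by
    rw [hq, hM]
    field_simp
  rw [hqe]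
  set E0 : ℝ := C1 ^ k * M / q with hE0
  have hE0pos : 0 < E0 := by positivity
  set c0 : ℝ := c2 / 2 with hc0
  have hc0pos : 0 < c0 := by positivity
  intro δ hδ hlim μ hμ
  have hμ' := tendsto_pi hμ k
  have key := lower0 (k := k) hμ' hA (ε := ENNReal.ofReal (1 - q)) ?_
  · rwa [ProbabilityMeasure.toMeasure_pi] at key
  intro δ' hδ'
  apply Eventually.frequently
  filter_upwards [hlim.eventually_lt_const (lt_min hδ' (show 0 < η / 16 by positivity))] with i hi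
  rw [lt_min_iff] at hi
  obtain ⟨hi1, hi2⟩ := hi
  have hδi := hδ i
  obtain ⟨X, Y, h, P, g1, g2, g3, g4, g5, hh2, hδh, hδh2, hnear⟩ :=
    place R hη h1 h2 h3 h4 hK hδi (by linarith)
  have hh0 : (0:ℝ) < h := by exact_mod_cast (show (0:ℤ) < h by omega)
  obtain ⟨w, w1, w2, w3, w4⟩ := hW s X Y h (δ i) (by omega) hδi hδh
    (fun z hz => hnear s z (hAz z hz))
  have h6 : q ≤ Qk k (R.edges (δ i)) (GdL c0 E0 0 s X Y h (R.x0 (δ i)) (R.x1 (δ i)) w) :=
    h5 k K M 0 hMpos X Y h (R.x0 (δ i)) (R.x1 (δ i)) (R.edges (δ i)) P w w1 w2 w3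
      (by rw [zero_add]; exact w3)
  have hmeas : MeasurableSet {K : Fin k → NonemptyCompacts ℂ |
      ¬ (Metric.cthickening δ' A ∩ ⋂ i, (K i : Set ℂ)).Nonempty} :=
    ((isClosed_meet hA.cthickening).isOpen_compl).measurableSet
  rw [pi_law_apply R hδi hmeas]
  apply ENNReal.ofReal_le_ofReal
  have h7 : Qk k (R.edges (δ i)) (fun F => ¬ GdL c0 E0 0 s X Y h (R.x0 (δ i)) (R.x1 (δ i)) w F) ≤
      1 - q := by
    unfold Qk
    rw [Pr_not]
    unfold Qk at h6
    linarith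
  refine le_trans (Pr_mono okh ?_) h7
  intro F hF hbad hgd
  apply hbad
  exact t8 R hh2 g1 g2 g3 g4 g5 hc0pos hgd (P := Metric.cthickening δ' A) (by
    intro v hv hne
    obtain ⟨z, hz, hd⟩ := w4 v hv hne
    exact Metric.mem_cthickening_of_dist_le _ z _ _ hz (hd.trans hi1.le))

/-- Lower bound by the capacity. -/
theorem posC1 (R : Rect) (hD : IsOpen R.D) (k : ℕ) {D' : Set ℂ} (hD' : IsCompact D')
    (hDD : D' ⊆ R.D) :
    ∃ c : ℝ, 0 < c ∧ ∀ A ⊆ D', ∀ (ν : Measure ℂ), IsFiniteMeasure ν → ν Aᶜ = 0 →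
      ∀ (δ : ℕ → ℝ) (hδ : ∀ i, 0 < δ i), Tendsto δ atTop (𝓝 0) →
      ∀ μ : ProbabilityMeasure (NonemptyCompacts ℂ),
      Tendsto (fun i => R.law (hδ i)) atTop (𝓝 μ) →
      Measure.pi (fun _ : Fin k => (μ : Measure (NonemptyCompacts ℂ)))
        {K | ¬ (A ∩ ⋂ i, (K i : Set ℂ)).Nonempty} ≤
          ENNReal.ofReal (1 - c * (ν.real Set.univ ^ 2 / (en ((k : ℝ) / 4) ν).toReal)) := by
  obtain ⟨n, hn⟩ := compact_inn hD hD' hDD
  set η : ℝ := 1 / (16 * ((n : ℝ) + 1)) with hη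
  have hηpos : 0 < η := by positivity
  have hη16 : 16 * η = 1 / ((n : ℝ) + 1) := by
    rw [hη]; field_simp
  obtain ⟨c', hc', hmain⟩ := posQ1 R k hηpos
  obtain ⟨T, hTA, hTf, hTcov⟩ := hD'.finite_cover_balls (e := η / 4) (by positivity)
  set N : ℕ := hTf.toFinset.card with hN
  refine ⟨c' / (4 * ((N : ℝ) + 1) ^ 2), by positivity, ?_⟩
  intro A hAD ν hfin hνA δ hδ hlim μ hμ
  have htriv : Measure.pi (fun _ : Fin k => (μ : Measure (NonemptyCompacts ℂ)))
        {K | ¬ (A ∩ ⋂ i, (K i : Set ℂ)).Nonempty} ≤ ENNReal.ofReal 1 := by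
    rw [ENNReal.ofReal_one]
    exact prob_le_one
  by_cases hν : ν = 0
  · have : ν.real Set.univ = 0 := by rw [hν]; simp
    rw [this]
    simpa using htriv
  by_cases hE : en ((k : ℝ) / 4) ν = ∞
  · rw [hE]
    simpa using htriv
  -- a compact subset of large measure
  have hU0 : ν Set.univ ≠ 0 := by simpa using hν
  obtain ⟨A1, hA1, hA1A, hA1ν⟩ : ∃ A1 : Set ℂ, IsCompact A1 ∧ A1 ⊆ A ∧
      ν Set.univ / 2 < ν A1 := by
    set T := toMeasurable ν Aᶜ with hT
    have hTm : MeasurableSet T := measurableSet_toMeasurable _ _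
    have hT0 : ν T = 0 := by rw [hT, measure_toMeasurable, hνA]
    have h1 : ν Set.univ / 2 < ν Tᶜ := by
      rw [measure_compl hTm (measure_ne_top _ _), hT0, tsub_zero]
      exact ENNReal.half_lt_self hU0 (measure_ne_top _ _)
    obtain ⟨A1, h2, h3, h4⟩ := hTm.compl.exists_lt_isCompact h1
    refine ⟨A1, h3, ?_, h4⟩
    intro z hz
    by_contra hcon
    exact h2 hz (subset_toMeasurable _ _ hcon)
  set m : ℝ := ν.real Set.univ with hm
  have hmpos : 0 < m := by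
    rw [hm, measureReal_def]
    exact ENNReal.toReal_pos hU0 (measure_ne_top _ _)
  have hA1m : m / 2 ≤ ν.real A1 := by
    have h1 := ENNReal.toReal_mono (measure_ne_top ν A1) hA1ν.le
    rw [ENNReal.toReal_div] at h1
    simpa [hm, measureReal_def] using h1
  obtain ⟨z0, hz0T, hz0⟩ : ∃ z0 ∈ T, m / (2 * ((N : ℝ) + 1)) ≤
      ν.real (A1 ∩ Metric.closedBall z0 (η / 4)) := by
    by_contra hcon
    push Not at hcon
    have h1 : A1 ⊆ ⋃ z ∈ hTf.toFinset, A1 ∩ Metric.closedBall z (η / 4) := by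
      intro z hz
      obtain ⟨x, hx, hzx⟩ := Set.mem_iUnion₂.mp (hTcov (hAD (hA1A hz)))
      exact Set.mem_iUnion₂.mpr ⟨x, hTf.mem_toFinset.mpr hx, hz,
        Metric.ball_subset_closedBall hzx⟩
    have h2 : ν.real A1 ≤ ∑ z ∈ hTf.toFinset, ν.real (A1 ∩ Metric.closedBall z (η / 4)) :=
      (measureReal_mono h1 (measure_ne_top ν _)).trans (measureReal_biUnion_finset_le _ _)
    have h3 : ∑ z ∈ hTf.toFinset, ν.real (A1 ∩ Metric.closedBall z (η / 4)) ≤
        ∑ _z ∈ hTf.toFinset, m / (2 * ((N : ℝ) + 1)) :=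
      Finset.sum_le_sum fun z hz => (hcon z (hTf.mem_toFinset.mp hz)).le
    rw [Finset.sum_const, nsmul_eq_mul, ← hN] at h3
    have h4 : (N : ℝ) * (m / (2 * ((N : ℝ) + 1))) < m / 2 := by
      rw [mul_div_assoc', div_lt_div_iff₀ (by positivity) (by norm_num)]
      nlinarith
    linarith
  have hz0D : Metric.ball z0 (1 / ((n : ℝ) + 1)) ⊆ R.D := hn (hTA hz0T)
  have hin : ∀ w : ℂ, ‖w‖ < 16 * η → z0 + w ∈ R.D := by
    intro w hw
    apply hz0D
    rw [Metric.mem_ball, dist_eq_norm, add_sub_cancel_left, ← hη16]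
    exact hw
  have b1 := hin (((-(8 * η) : ℝ)) : ℂ) (by
    rw [Complex.norm_real, Real.norm_eq_abs, abs_neg, abs_of_pos (by positivity)]
    linarith)
  have b2 := hin (((8 * η : ℝ)) : ℂ) (by
    rw [Complex.norm_real, Real.norm_eq_abs, abs_of_pos (by positivity)]
    linarith)
  have b3 := hin (((-(8 * η) : ℝ)) * Complex.I) (by
    rw [norm_mul, Complex.norm_I, mul_one, Complex.norm_real, Real.norm_eq_abs, abs_neg,
      abs_of_pos (by positivity)]
    linarith)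
  have b4 := hin (((8 * η : ℝ)) * Complex.I) (by
    rw [norm_mul, Complex.norm_I, mul_one, Complex.norm_real, Real.norm_eq_abs,
      abs_of_pos (by positivity)]
    linarith)
  set A2 : Set ℂ := A1 ∩ Metric.closedBall z0 (η / 4) with hA2
  have hA2c : IsCompact A2 := hA1.inter_right Metric.isClosed_closedBall
  have hm2 : (ν.restrict A2).real Set.univ = ν.real A2 := by
    rw [measureReal_def, Measure.restrict_apply_univ]
    rfl
  have hm2pos : 0 < ν.real A2 := lt_of_lt_of_le (by positivity) hz0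
  have hν2 : ν.restrict A2 ≠ 0 := by
    intro h0
    rw [h0] at hm2
    rw [← hm2] at hm2pos
    simp at hm2pos
  have hν3 : ν.restrict A2 A2ᶜ = 0 := by
    rw [Measure.restrict_apply hA2c.isClosed.measurableSet.compl]
    simp
  have hEle : en ((k : ℝ) / 4) (ν.restrict A2) ≤ en ((k : ℝ) / 4) ν := by
    unfold en
    refine lintegral_mono' Measure.restrict_le_self ?_
    intro x
    exact lintegral_mono' Measure.restrict_le_self le_rfl
  have hE2 : en ((k : ℝ) / 4) (ν.restrict A2) ≠ ∞ := ne_top_of_le_ne_top hE hEle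
  obtain ⟨hE2pos, hfinal⟩ := hmain A2 hA2c (ν.restrict A2) inferInstance hν2 hν3 hE2 z0
    (by have := b1.1; simp at this; linarith)
    (by have := b2.2.1; simp at this; linarith)
    (by have := b3.2.2.1; simp at this; linarith)
    (by have := b4.2.2.2; simp at this; linarith)
    (fun z hz => hz.2)
  have hfin2 := hfinal δ hδ hlim μ hμ
  rw [hm2] at hfin2
  refine le_trans (measure_mono ?_) (hfin2.trans (ENNReal.ofReal_le_ofReal ?_))
  · intro K hK hle
    apply hK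
    exact hle.mono (Set.inter_subset_inter_left _ (Set.inter_subset_left.trans hA1A))
  · set E : ℝ := (en ((k : ℝ) / 4) ν).toReal with hEd
    set E2 : ℝ := (en ((k : ℝ) / 4) (ν.restrict A2)).toReal with hE2d
    have hEE : E2 ≤ E := ENNReal.toReal_mono hE hEle
    have hEpos : 0 < E := lt_of_lt_of_le hE2pos hEE
    have i1 : (m / (2 * ((N : ℝ) + 1))) ^ 2 / E ≤ ν.real A2 ^ 2 / E2 := by
      apply div_le_div₀ (by positivity) (pow_le_pow_left₀ (by positivity) hz0 2) hE2pos hEE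
    have i2 : c' / (4 * ((N : ℝ) + 1) ^ 2) * (m ^ 2 / E) =
        c' * ((m / (2 * ((N : ℝ) + 1))) ^ 2 / E) := by
      field_simp
      ring
    rw [i2]
    have := mul_le_mul_of_nonneg_left i1 hc'.le
    linarith

/-- Upper bound by the Hausdorff content. -/
theorem hitC (R : Rect) (hD : IsOpen R.D) {k : ℕ} (hk : 1 ≤ k) {D' : Set ℂ}
    (hD' : IsCompact D') (hDD : D' ⊆ R.D) :
    ∃ C : ℝ≥0∞, C ≠ ∞ ∧ ∀ (δ : ℕ → ℝ) (hδ : ∀ i, 0 < δ i), Tendsto δ atTop (𝓝 0) →
      ∀ μ : ProbabilityMeasure (NonemptyCompacts ℂ),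
      Tendsto (fun i => R.law (hδ i)) atTop (𝓝 μ) →
      ∀ A ⊆ D', ∀ t : ℕ → Set ℂ, A ⊆ ⋃ n, t n →
      Measure.pi (fun _ : Fin k => (μ : Measure (NonemptyCompacts ℂ)))
        {K | (com K ∩ A).Nonempty} ≤ C * ∑' n, Metric.ediam (t n) ^ ((k : ℝ) / 4) := by
  obtain ⟨c, C, -, hC, hh⟩ := H934F.hit74 H985T.st_A H934SL.st_L
  obtain ⟨n, hn⟩ := compact_inn hD hD' hDD
  have hk0 : (0:ℝ) < (k : ℝ) := by exact_mod_cast (show 0 < k by omega)
  have hα : (0:ℝ) < (k : ℝ) / 4 := by positivity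
  set α : ℝ := (k : ℝ) / 4 with hαd
  set r0 : ℝ := 1 / ((n : ℝ) + 1) with hr0
  have hr0p : 0 < r0 := by positivity
  set C1 : ℝ≥0∞ := ENNReal.ofReal ((C * ((n : ℝ) + 1) ^ (1/4 : ℝ)) ^ k) with hC1
  set C2 : ℝ≥0∞ := ENNReal.ofReal r0 ^ (-α) with hC2
  have hC2t : C2 ≠ ∞ := by
    rw [hC2, ENNReal.ofReal_rpow_of_pos hr0p]
    exact ENNReal.ofReal_ne_top
  refine ⟨C1 + C2, ENNReal.add_ne_top.mpr ⟨ENNReal.ofReal_ne_top, hC2t⟩, ?_⟩
  intro δ hδ hlim μ hμ A hA t ht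
  have hit := (hh R δ hδ hlim μ hμ).2
  have hb : ∀ z ∈ A, ∀ r : ℝ, 0 < r → r ≤ r0 →
      Measure.pi (fun _ : Fin k => (μ : Measure (NonemptyCompacts ℂ)))
        (H443B.FS.Hit (com (k := k)) z r) ≤ C1 * ENNReal.ofReal r ^ α := by
    intro z hz r hr hr2
    have h1 := hit z r (1 / ((n : ℝ) + 1)) hr hr2 (hn (hA hz))
    refine (hit_pow h1).trans (le_of_eq ?_)
    have e : C * (r / (1 / ((n : ℝ) + 1))) ^ (1/4 : ℝ) =
        C * ((n : ℝ) + 1) ^ (1/4 : ℝ) * r ^ (1/4 : ℝ) := by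
      rw [mul_assoc, ← Real.mul_rpow (by positivity) hr.le]
      congr 2
      field_simp
    rw [e, mul_pow, ENNReal.ofReal_rpow_of_pos hr, hC1, ← ENNReal.ofReal_mul (by positivity)]
    congr 2
    rw [← Real.rpow_natCast, ← Real.rpow_mul hr.le]
    congr 1
    rw [hαd]
    ring
  have hsub : {K : Fin k → NonemptyCompacts ℂ | (com K ∩ A).Nonempty} ⊆
      ⋃ j, {K : Fin k → NonemptyCompacts ℂ | (com K ∩ A ∩ t j).Nonempty} := by
    rintro K ⟨y, hy⟩
    obtain ⟨j, hj⟩ := Set.mem_iUnion.mp (ht hy.2)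
    exact Set.mem_iUnion.mpr ⟨j, y, hy, hj⟩
  refine (measure_mono hsub).trans ((measure_iUnion_le _).trans ?_)
  rw [← ENNReal.tsum_mul_left]
  apply ENNReal.tsum_le_tsum
  intro j
  by_cases hj : Metric.ediam (t j) ≤ ENNReal.ofReal r0
  · have h1 : {K : Fin k → NonemptyCompacts ℂ | (com K ∩ A ∩ t j).Nonempty} ⊆
        H443B.FS.Ev (com (k := k)) A (t j) := fun K hK =>
      H443B.FS.mem_Ev (hj.trans_lt ENNReal.ofReal_lt_top).ne hK
    refine (measure_mono h1).trans ?_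
    refine (Ev_le hα hr0p ENNReal.ofReal_ne_top hb hj).trans ?_
    apply iSup_le
    intro _
    gcongr
    exact le_self_add
  · refine prob_le_one.trans ?_
    have h1 : (1 : ℝ≥0∞) ≤ C2 * Metric.ediam (t j) ^ α := by
      have h2 : (1 : ℝ≥0∞) = C2 * ENNReal.ofReal r0 ^ α := by
        rw [hC2, ← ENNReal.rpow_add _ _ (ENNReal.ofReal_pos.mpr hr0p).ne' ENNReal.ofReal_ne_top]
        simp
      rw [h2]
      gcongr
      exact (not_le.mp hj).le
    refine h1.trans ?_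
    gcongr
    exact le_add_self

end Pool.Agent.U151.BX
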