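import Pool.Agent.U151.BX.Sus

/-!
Net content and Hausdorff dimension; compact subsets of analytic sets.
-/

set_option autoImplicit false

namespace Pool.Agent.U151.BX

open Set Filter Topology MeasureTheory
open scoped ENNReal NNReal

/-- The weight of a cell of level `l`. -/
noncomputable def W (σ : ℝ) (l : ℕ) : ℝ≥0∞ := ((2:ℝ≥0∞)⁻¹ ^ l) ^ σ

theorem half_pow (l : ℕ) : ((2:ℝ≥0∞)⁻¹ ^ l) = ENNReal.ofReal ((1/2) ^ l) := by
  rw [ENNReal.ofReal_pow (by norm_num), one_div, ENNReal.ofReal_inv_of_pos (by norm_num)]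
  norm_num

theorem half_tendsto : Tendsto (fun l : ℕ => (2:ℝ≥0∞)⁻¹ ^ l) atTop (𝓝 0) :=
  ENNReal.tendsto_pow_atTop_nhds_zero_of_lt_one (by
    rw [ENNReal.inv_lt_one]
    norm_num)

theorem W_tendsto {σ : ℝ} (hσ : 0 < σ) : Tendsto (W σ) atTop (𝓝 0) := by
  have h := (ENNReal.continuous_rpow_const (y := σ)).tendsto 0 |>.comp half_tendsto
  rw [ENNReal.zero_rpow_of_pos hσ] at h
  exact h

theorem W_pos (σ : ℝ) (hσ : 0 < σ) (l : ℕ) : 0 < W σ l := by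
  unfold W
  refine ENNReal.rpow_pos ?_ ?_
  · rw [half_pow]
    exact ENNReal.ofReal_pos.2 (by positivity)
  · rw [half_pow]
    exact ENNReal.ofReal_ne_top

/-- The cell. -/
def cell (q : ℕ × (ℤ × ℤ)) : Set ℂ := {z | ix q.1 z = q.2}

theorem dist_of_near {l : ℕ} {z z' : ℂ} {r : ℝ} (h1 : |z.re * 2 ^ l - z'.re * 2 ^ l| ≤ r)
    (h2 : |z.im * 2 ^ l - z'.im * 2 ^ l| ≤ r) : dist z z' ≤ 2 * r * (1/2) ^ l := by
  have hp : (0:ℝ) < 2 ^ l := by positivity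
  have e1 : |(z - z').re| ≤ r * (1/2) ^ l := by
    rw [← sub_mul, abs_mul, abs_of_pos hp] at h1
    have h3 : |(z - z').re| = (|z.re - z'.re| * 2 ^ l) * (1/2) ^ l := by
      rw [Complex.sub_re, mul_assoc, ← mul_pow]
      norm_num
    rw [h3]
    exact mul_le_mul_of_nonneg_right h1 (by positivity)
  have e2 : |(z - z').im| ≤ r * (1/2) ^ l := by
    rw [← sub_mul, abs_mul, abs_of_pos hp] at h2
    have h3 : |(z - z').im| = (|z.im - z'.im| * 2 ^ l) * (1/2) ^ l := by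
      rw [Complex.sub_im, mul_assoc, ← mul_pow]
      norm_num
    rw [h3]
    exact mul_le_mul_of_nonneg_right h2 (by positivity)
  rw [dist_eq_norm]
  have h4 := Complex.norm_le_abs_re_add_abs_im (z - z')
  linarith

theorem ediam_cell (q : ℕ × (ℤ × ℤ)) : Metric.ediam (cell q) ≤ 2 * (2:ℝ≥0∞)⁻¹ ^ q.1 := by
  have e : (2:ℝ≥0∞) * (2:ℝ≥0∞)⁻¹ ^ q.1 = ENNReal.ofReal (2 * 1 * (1/2) ^ q.1) := by
    rw [half_pow, ENNReal.ofReal_mul (by norm_num)]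
    norm_num
  rw [e]
  refine Metric.ediam_le_of_forall_dist_le fun z hz z' hz' => ?_
  have h1 : ix q.1 z = q.2 := hz
  have h2 : ix q.1 z' = q.2 := hz'
  have h3 : ix q.1 z = ix q.1 z' := by rw [h1, h2]
  unfold ix at h3
  rw [Prod.mk.injEq] at h3
  apply dist_of_near
  · exact (Int.abs_sub_lt_one_of_floor_eq_floor h3.1).le
  · exact (Int.abs_sub_lt_one_of_floor_eq_floor h3.2).le

theorem haus_zero {σ : ℝ} (hσ : 0 < σ) {E : Set ℂ} (h : M (W σ) E = 0) : μH[σ] E = 0 := by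
  classical
  have hex : ∀ n : ℕ, ∃ Q : Set (ℕ × (ℤ × ℤ)), E ⊆ cov Q ∧ S (W σ) Q < W σ n := by
    intro n
    have h1 : M (W σ) E < W σ n := by
      rw [h]
      exact W_pos σ hσ n
    unfold M at h1
    rw [iInf_lt_iff] at h1
    obtain ⟨Q, hQ⟩ := h1
    rw [iInf_lt_iff] at hQ
    obtain ⟨hQ1, hQ2⟩ := hQ
    exact ⟨Q, hQ1, hQ2⟩
  choose Q hQ1 hQ2 using hex
  have hlev : ∀ n, ∀ q ∈ Q n, (2:ℝ≥0∞)⁻¹ ^ q.1 ≤ (2:ℝ≥0∞)⁻¹ ^ n := by
    intro n q hq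
    have h1 : W σ q.1 ≤ S (W σ) (Q n) := by
      unfold S
      refine le_trans (le_of_eq ?_) (ENNReal.le_tsum q)
      rw [indicator_of_mem hq]
    have h2 : W σ q.1 ≤ W σ n := h1.trans (hQ2 n).le
    unfold W at h2
    exact (ENNReal.rpow_le_rpow_iff hσ).1 h2
  obtain ⟨t, ht⟩ : ∃ t : ℕ → (ℕ × (ℤ × ℤ)) → Set ℂ,
      t = fun n q => if q ∈ Q n then cell q else ∅ := ⟨_, rfl⟩
  have hr : Tendsto (fun n : ℕ => 2 * (2:ℝ≥0∞)⁻¹ ^ n) atTop (𝓝 0) := by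
    have := ENNReal.Tendsto.const_mul (a := (2:ℝ≥0∞)) half_tendsto (Or.inr (by norm_num))
    rwa [mul_zero] at this
  have h1 := Measure.hausdorffMeasure_le_liminf_tsum (X := ℂ) σ E (l := atTop)
    (fun n : ℕ => 2 * (2:ℝ≥0∞)⁻¹ ^ n) hr t
    (Eventually.of_forall fun n q => by
      rw [ht]
      simp only
      split_ifs with hq
      · exact (ediam_cell q).trans (mul_le_mul_right (hlev n q hq) 2)
      · rw [Metric.ediam_empty]
        exact zero_le)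
    (Eventually.of_forall fun n => by
      intro z hz
      obtain ⟨l, hl⟩ := hQ1 n hz
      refine mem_iUnion.2 ⟨(l, ix l z), ?_⟩
      rw [ht]
      simp only [if_pos hl]
      rfl)
  rw [← nonpos_iff_eq_zero]
  refine h1.trans ?_
  have h2 : ∀ n : ℕ, ∑' q, Metric.ediam (t n q) ^ σ ≤ 2 ^ σ * W σ n := by
    intro n
    refine le_trans ?_ (mul_le_mul_right (hQ2 n).le (2 ^ σ))
    unfold S
    rw [← ENNReal.tsum_mul_left]
    refine ENNReal.tsum_le_tsum fun q => ?_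
    by_cases hq : q ∈ Q n
    · rw [indicator_of_mem hq, ht]
      simp only [if_pos hq]
      unfold W
      rw [← ENNReal.mul_rpow_of_nonneg _ _ hσ.le]
      exact ENNReal.rpow_le_rpow (ediam_cell q) hσ.le
    · rw [indicator_of_notMem hq, ht]
      simp only [if_neg hq]
      rw [Metric.ediam_empty, ENNReal.zero_rpow_of_pos hσ]
      exact zero_le
  have h3 : Tendsto (fun n => (2:ℝ≥0∞) ^ σ * W σ n) atTop (𝓝 0) := by
    have := ENNReal.Tendsto.const_mul (a := (2:ℝ≥0∞) ^ σ) (W_tendsto hσ)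
      (Or.inr (ENNReal.rpow_ne_top_of_nonneg hσ.le (by norm_num)))
    rwa [mul_zero] at this
  refine (liminf_le_liminf (Eventually.of_forall h2)).trans ?_
  rw [h3.liminf_eq]

theorem S_iUnion {w : ℕ → ℝ≥0∞} (A : ℕ → Set (ℕ × (ℤ × ℤ))) :
    S w (⋃ n, A n) ≤ ∑' n, S w (A n) := by
  unfold S
  rw [ENNReal.tsum_comm]
  refine ENNReal.tsum_le_tsum fun q => ?_
  by_cases hq : q ∈ ⋃ n, A n
  · obtain ⟨n, hn⟩ := mem_iUnion.1 hq
    rw [indicator_of_mem hq]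
    refine le_trans (le_of_eq ?_) (ENNReal.le_tsum n)
    rw [indicator_of_mem hn]
  · rw [indicator_of_notMem hq]
    exact zero_le

theorem S_single {w : ℕ → ℝ≥0∞} (q : ℕ × (ℤ × ℤ)) : S w {q} = w q.1 := by
  classical
  unfold S
  rw [tsum_eq_single q, indicator_of_mem (mem_singleton q)]
  intro q' hq'
  exact indicator_of_notMem (by simpa using hq') _

/-- A set of small diameter is covered by the neighbours of one cell. -/
theorem cover_small {T : Set ℂ} {l : ℕ} {z0 : ℂ} (hz0 : z0 ∈ T)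
    (hT : Metric.ediam T ≤ (2:ℝ≥0∞)⁻¹ ^ l) : T ⊆ cov (nb {(l, ix l z0)}) := by
  intro z hz
  have h1 := (Metric.edist_le_ediam_of_mem hz hz0).trans hT
  rw [half_pow, edist_dist] at h1
  have h2 : dist z z0 ≤ (1/2) ^ l := (ENNReal.ofReal_le_ofReal_iff (by positivity)).1 h1
  have hp : (0:ℝ) < 2 ^ l := by positivity
  have key : ∀ a b : ℝ, |a - b| ≤ (1/2) ^ l → |⌊a * 2 ^ l⌋ - ⌊b * 2 ^ l⌋| ≤ 1 := by
    intro a b hab
    have h3 : |a * 2 ^ l - b * 2 ^ l| ≤ 1 := by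
      rw [← sub_mul, abs_mul, abs_of_pos hp]
      calc |a - b| * 2 ^ l ≤ (1/2) ^ l * 2 ^ l := mul_le_mul_of_nonneg_right hab hp.le
        _ = 1 := by rw [← mul_pow]; norm_num
    rw [abs_le] at h3
    have g1 := Int.floor_le (a * 2 ^ l)
    have g2 := Int.lt_floor_add_one (a * 2 ^ l)
    have g3 := Int.floor_le (b * 2 ^ l)
    have g4 := Int.lt_floor_add_one (b * 2 ^ l)
    have g5 : ((⌊a * 2 ^ l⌋ : ℤ) : ℝ) < ((⌊b * 2 ^ l⌋ + 2 : ℤ) : ℝ) := by push_cast; linarith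
    have g6 : ((⌊b * 2 ^ l⌋ : ℤ) : ℝ) < ((⌊a * 2 ^ l⌋ + 2 : ℤ) : ℝ) := by push_cast; linarith
    have g7 : ⌊a * 2 ^ l⌋ < ⌊b * 2 ^ l⌋ + 2 := by exact_mod_cast g5
    have g8 : ⌊b * 2 ^ l⌋ < ⌊a * 2 ^ l⌋ + 2 := by exact_mod_cast g6
    rw [abs_le]
    omega
  refine ⟨l, (l, ix l z0), rfl, rfl, ?_, ?_⟩
  · refine key _ _ (le_trans ?_ h2)
    rw [← Complex.sub_re, dist_eq_norm]
    exact Complex.abs_re_le_norm _
  · refine key _ _ (le_trans ?_ h2)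
    rw [← Complex.sub_im, dist_eq_norm]
    exact Complex.abs_im_le_norm _

/-- The level of a set. -/
theorem exists_level {σ : ℝ} (hσ : 0 < σ) {D : ℝ≥0∞} (hD : D ≤ 1) {ε : ℝ≥0∞} (hε : 0 < ε) :
    ∃ l : ℕ, D ≤ (2:ℝ≥0∞)⁻¹ ^ l ∧ W σ l ≤ 2 ^ σ * D ^ σ + ε := by
  classical
  rcases eq_or_ne D 0 with h | h
  · obtain ⟨l, hl⟩ := ((tendsto_order.1 (W_tendsto hσ)).2 ε hε).exists
    exact ⟨l, by rw [h]; exact zero_le, hl.le.trans le_add_self⟩
  · have hex : ∃ l : ℕ, (2:ℝ≥0∞)⁻¹ ^ (l + 1) < D := by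
      have h2 := (tendsto_order.1 half_tendsto).2 D (pos_iff_ne_zero.2 h)
      obtain ⟨N, hN⟩ := eventually_atTop.1 h2
      exact ⟨N, hN (N + 1) (by omega)⟩
    refine ⟨Nat.find hex, ?_, ?_⟩
    · rcases Nat.eq_zero_or_pos (Nat.find hex) with h2 | h2
      · rw [h2, pow_zero]
        exact hD
      · have h3 := Nat.find_min hex (m := Nat.find hex - 1) (by omega)
        rw [show Nat.find hex - 1 + 1 = Nat.find hex by omega] at h3
        exact not_lt.1 h3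
    · have h3 := Nat.find_spec hex
      have h4 : (2:ℝ≥0∞)⁻¹ ^ (Nat.find hex) ≤ 2 * D := by
        calc (2:ℝ≥0∞)⁻¹ ^ (Nat.find hex) = 2 * (2:ℝ≥0∞)⁻¹ ^ (Nat.find hex + 1) := by
              rw [pow_succ, ← mul_assoc, mul_comm (2:ℝ≥0∞) _, mul_assoc,
                ENNReal.mul_inv_cancel (by norm_num) (by norm_num), mul_one]
          _ ≤ 2 * D := by gcongr
      unfold W
      refine (ENNReal.rpow_le_rpow h4 hσ.le).trans ?_
      rw [ENNReal.mul_rpow_of_nonneg _ _ hσ.le]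
      exact le_self_add

theorem M_zero {σ : ℝ} (hσ : 0 < σ) {E : Set ℂ} (h : μH[σ] E = 0) : M (W σ) E = 0 := by
  classical
  rw [← nonpos_iff_eq_zero]
  have hC : (9 * (2 ^ σ + 1) : ℝ≥0∞) ≠ ⊤ :=
    ENNReal.mul_ne_top (by norm_num) (ENNReal.add_ne_top.2
      ⟨ENNReal.rpow_ne_top_of_nonneg hσ.le (by norm_num), by norm_num⟩)
  have key : ∀ ε : ℝ≥0, 0 < ε → M (W σ) E ≤ 9 * (2 ^ σ + 1) * ε := by
    intro ε hε
    rw [Measure.hausdorffMeasure_apply] at h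
    have h1 : (⨅ (t : ℕ → Set ℂ) (_ : E ⊆ ⋃ n, t n) (_ : ∀ n, Metric.ediam (t n) ≤ 1),
        ∑' n, ⨆ _ : (t n).Nonempty, Metric.ediam (t n) ^ σ) < (ε : ℝ≥0∞) := by
      refine lt_of_le_of_lt ?_ (show (0:ℝ≥0∞) < ε by exact_mod_cast hε)
      rw [← h]
      exact le_iSup₂ (f := fun (r : ℝ≥0∞) (_ : 0 < r) =>
        ⨅ (t : ℕ → Set ℂ) (_ : E ⊆ ⋃ n, t n) (_ : ∀ n, Metric.ediam (t n) ≤ r),
          ∑' n, ⨆ _ : (t n).Nonempty, Metric.ediam (t n) ^ σ) 1 one_pos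
    rw [iInf_lt_iff] at h1
    obtain ⟨t, ht⟩ := h1
    rw [iInf_lt_iff] at ht
    obtain ⟨ht1, ht⟩ := ht
    rw [iInf_lt_iff] at ht
    obtain ⟨ht2, ht3⟩ := ht
    obtain ⟨ε', hε', hsum⟩ := ENNReal.exists_pos_sum_of_countable
      (ε := (ε : ℝ≥0∞)) (by exact_mod_cast hε.ne') ℕ
    have hex : ∀ n, ∃ A : Set (ℕ × (ℤ × ℤ)), t n ⊆ cov A ∧
        S (W σ) A ≤ 9 * (2 ^ σ * (⨆ _ : (t n).Nonempty, Metric.ediam (t n) ^ σ) + ε' n) := by
      intro n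
      rcases (t n).eq_empty_or_nonempty with h2 | h2
      · refine ⟨∅, by rw [h2]; exact empty_subset _, ?_⟩
        unfold S
        simp
      · obtain ⟨z0, hz0⟩ := h2
        obtain ⟨l, hl1, hl2⟩ := exists_level hσ (ht2 n) (ε := (ε' n : ℝ≥0∞))
          (by exact_mod_cast hε' n)
        refine ⟨nb {(l, ix l z0)}, cover_small hz0 hl1, (S_nb _).trans ?_⟩
        rw [S_single, ciSup_pos ⟨z0, hz0⟩]
        gcongr
    choose A hA1 hA2 using hex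
    have hcov : E ⊆ cov (⋃ n, A n) := by
      intro z hz
      obtain ⟨n, hn⟩ := mem_iUnion.1 (ht1 hz)
      obtain ⟨l, hl⟩ := hA1 n hn
      exact ⟨l, mem_iUnion.2 ⟨n, hl⟩⟩
    refine (M_le hcov).trans ((S_iUnion A).trans ((ENNReal.tsum_le_tsum hA2).trans ?_))
    rw [ENNReal.tsum_mul_left, ENNReal.tsum_add, ENNReal.tsum_mul_left, mul_assoc, add_mul, one_mul]
    gcongr
  by_contra hcon
  push Not at hcon
  obtain ⟨ε, hε1, hε2⟩ : ∃ ε : ℝ≥0, 0 < ε ∧ (9 * (2 ^ σ + 1) * ε : ℝ≥0∞) < M (W σ) E := by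
    have h2 : Tendsto (fun x : ℝ≥0∞ => (9 * (2 ^ σ + 1) : ℝ≥0∞) * x) (𝓝 0) (𝓝 0) := by
      have := ENNReal.Tendsto.const_mul (a := (9 * (2 ^ σ + 1) : ℝ≥0∞)) (tendsto_id (x := 𝓝 (0:ℝ≥0∞)))
        (Or.inr hC)
      rwa [mul_zero] at this
    have h3 := (tendsto_order.1 (h2.comp half_tendsto)).2 _ hcon
    obtain ⟨n, hn⟩ := h3.exists
    refine ⟨(2:ℝ≥0)⁻¹ ^ n, by positivity, ?_⟩
    have e : (((2:ℝ≥0)⁻¹ ^ n : ℝ≥0) : ℝ≥0∞) = (2:ℝ≥0∞)⁻¹ ^ n := by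
      rw [ENNReal.coe_pow, ENNReal.coe_inv (by norm_num)]
      norm_num
    rw [e]
    exact hn
  exact absurd (key ε hε1) (not_le.2 hε2)

/-- **Compact subsets of analytic sets of the plane.** -/
theorem exists_compact_dim {E : Set ℂ} (hE : AnalyticSet E) {x : ℝ≥0∞} (hx : x < dimH E) :
    ∃ K ⊆ E, IsCompact K ∧ x < dimH K := by
  obtain ⟨y, hy1, hy2⟩ := ENNReal.lt_iff_exists_nnreal_btwn.1 hx
  have hy0 : (0:ℝ) < y := by
    have : (0:ℝ≥0∞) < y := lt_of_le_of_lt zero_le hy1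
    exact_mod_cast this
  have h1 : μH[(y:ℝ)] E ≠ 0 := by
    rw [hausdorffMeasure_of_lt_dimH hy2]
    exact ENNReal.top_ne_zero
  have h2 : M (W y) E ≠ 0 := fun h => h1 (haus_zero hy0 h)
  rw [AnalyticSet] at hE
  rcases hE with hE | ⟨f, hf, hE⟩
  · rw [hE, dimH_empty] at hx
    exact absurd hx not_lt_zero
  · obtain ⟨c, hc1, hc2⟩ := exists_between (pos_iff_ne_zero.2 h2)
    rw [← hE] at hc2
    obtain ⟨K, hK1, hK2, hK3⟩ := exists_compact hf hc2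
    refine ⟨K, by rw [← hE]; exact hK1, hK2, lt_of_lt_of_le hy1 ?_⟩
    apply le_dimH_of_hausdorffMeasure_ne_zero
    intro h3
    rw [M_zero hy0 h3, mul_zero] at hK3
    exact absurd hc1 (not_lt.2 hK3)

end Pool.Agent.U151.BX
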