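import Pool.Agent.U151.FS.Lim

/-!
Common points of `k` independent paths in a compact set: passing to the weak limit.
-/

set_option autoImplicit false

namespace Pool.Agent.U151.BX

open H973 hiding SR
open H974 H12S H934E H934F Finset MeasureTheory TopologicalSpace Filter Topology
open Pool.Agent.U151.IP Pool.Agent.U151.FS
open scoped ENNReal NNReal

variable {k : ℕ}

/-- Intersections of decreasing neighbourhoods. -/
theorem meet_of_thick {C K : Set ℂ} (hC : IsCompact C) (hK : IsClosed K)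
    (h : ∀ m : ℕ, (Metric.cthickening (1 / ((m : ℝ) + 1)) C ∩ K).Nonempty) :
    (C ∩ K).Nonempty := by
  have h1 : (⋂ m : ℕ, (Metric.cthickening (1 / ((m : ℝ) + 1)) C ∩ K)).Nonempty := by
    apply IsCompact.nonempty_iInter_of_sequence_nonempty_isCompact_isClosed
    · intro n
      apply Set.inter_subset_inter_left
      apply Metric.cthickening_mono
      exact Nat.one_div_le_one_div (Nat.le_succ n)
    · exact h
    · exact (hC.cthickening).inter_right hK
    · intro n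
      exact Metric.isClosed_cthickening.inter hK
  obtain ⟨z, hz⟩ := h1
  rw [Set.mem_iInter] at hz
  refine ⟨z, ?_, (hz 0).2⟩
  have h2 : z ∈ ⋂ m : ℕ, Metric.cthickening (1 / ((m : ℝ) + 1)) C :=
    Set.mem_iInter.mpr fun m => (hz m).1
  rw [← hC.isClosed.closure_eq]
  rw [Metric.closure_eq_iInter_cthickening]
  simp only [Set.mem_iInter]
  intro ε hε
  obtain ⟨n, hn⟩ := exists_nat_one_div_lt hε
  exact Metric.cthickening_mono hn.le _ (hz n).1

/-- Lower bound for the probability in the limit. -/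
theorem lower0 {μs : ℕ → ProbabilityMeasure (Fin k → NonemptyCompacts ℂ)}
    {μ : ProbabilityMeasure (Fin k → NonemptyCompacts ℂ)} (hμ : Tendsto μs atTop (𝓝 μ))
    {C : Set ℂ} (hC : IsCompact C) {ε : ℝ≥0∞}
    (h1 : ∀ δ : ℝ, 0 < δ → ∃ᶠ n in atTop, (μs n : Measure (Fin k → NonemptyCompacts ℂ))
        {K | ¬ (Metric.cthickening δ C ∩ ⋂ i, (K i : Set ℂ)).Nonempty} ≤ ε) :
    (μ : Measure (Fin k → NonemptyCompacts ℂ))
      {K | ¬ (C ∩ ⋂ i, (K i : Set ℂ)).Nonempty} ≤ ε := by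
  have hopen : ∀ δ : ℝ, IsOpen {K : Fin k → NonemptyCompacts ℂ |
      ¬ (Metric.cthickening δ C ∩ ⋂ i, (K i : Set ℂ)).Nonempty} := fun δ =>
    (isClosed_meet (hC.cthickening)).isOpen_compl
  have h2 : ∀ δ : ℝ, 0 < δ → (μ : Measure (Fin k → NonemptyCompacts ℂ))
      {K : Fin k → NonemptyCompacts ℂ |
        ¬ (Metric.cthickening δ C ∩ ⋂ i, (K i : Set ℂ)).Nonempty} ≤ ε := by
    intro δ hδ
    refine (ProbabilityMeasure.le_liminf_measure_open_of_tendsto hμ (hopen δ)).trans ?_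
    exact liminf_le_of_frequently_le (h1 δ hδ)
  set W : ℕ → Set (Fin k → NonemptyCompacts ℂ) := fun m =>
    {K : Fin k → NonemptyCompacts ℂ |
      ¬ (Metric.cthickening (1 / ((m : ℝ) + 1)) C ∩ ⋂ i, (K i : Set ℂ)).Nonempty} with hW
  have hcl : ∀ K : Fin k → NonemptyCompacts ℂ, IsClosed (⋂ i, (K i : Set ℂ)) := fun K =>
    isClosed_iInter fun i => (K i).isCompact.isClosed
  have h3 : ({K : Fin k → NonemptyCompacts ℂ | ¬ (C ∩ ⋂ i, (K i : Set ℂ)).Nonempty} :
      Set (Fin k → NonemptyCompacts ℂ)) ⊆ ⋃ m : ℕ, W m := by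
    intro K hK
    by_contra hcon
    simp only [hW, Set.mem_iUnion, Set.mem_ofPred_eq, not_exists, not_not] at hcon
    exact hK (meet_of_thick hC (hcl K) hcon)
  refine le_trans (measure_mono h3) ?_
  have hmono : Monotone W := by
    intro m m' hmm K hK hG
    have h4 := Nat.one_div_le_one_div (α := ℝ) hmm
    exact hK (hG.mono (Set.inter_subset_inter_left _ (Metric.cthickening_mono h4 _)))
  rw [hmono.measure_iUnion]
  exact iSup_le fun m => h2 _ (by positivity)

/-- The good event gives a common point. -/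
theorem t8 (R : Rect) {δ : ℝ} {X Y h : ℤ} (hh : 2 ≤ h)
    (hl : R.x0 δ < X - 7 * h) (hl0 : R.x0 δ ≤ 0) (hr : X + 7 * h < R.x1 δ)
    (hb : 0 < Y - 3 * h) (ht' : Y + 3 * h < R.y1 δ) {F : Finset (Edg × Fin k)}
    {c0 E0 t : ℝ} {s : Bool × Bool} {w : Vtx → ℝ} (hc0 : 0 < c0)
    (hG : GdL c0 E0 t s X Y h (R.x0 δ) (R.x1 δ) w F) {P : Set ℂ}
    (hP : ∀ v ∈ box X Y h, w v ≠ 0 → t7_pt δ s v ∈ P) :
    (P ∩ ⋂ i, R.path δ (sl i F)).Nonempty := by
  obtain ⟨hC, hcard, -⟩ := hG
  have hh0 : (0 : ℝ) < (h : ℝ) := by exact_mod_cast (by omega : (0 : ℤ) < h)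
  have hcpos : (0 : ℝ) < WV s h (box X Y h) w F := lt_of_lt_of_le (by positivity) hcard
  obtain ⟨v, hv, hne⟩ : ∃ v ∈ box X Y h, w v * ind (E2k s h v F) ≠ 0 := by
    by_contra hcon
    push Not at hcon
    have : WV s h (box X Y h) w F = 0 := Finset.sum_eq_zero hcon
    rw [this] at hcpos
    exact lt_irrefl _ hcpos
  have hne1 : w v ≠ 0 := fun h0 => hne (by rw [h0, zero_mul])
  have hne2 : E2k s h v F := by
    by_contra hn
    exact hne (by rw [ind_not_of hn, mul_zero])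
  refine ⟨t7_pt δ s v, hP v hv hne1, ?_⟩
  rw [Set.mem_iInter]
  intro i
  have h5 := t4g R hh hl hl0 hr hb ht' (hC i).1 (hC i).2 hv (hne2 i)
  unfold Rect.path
  rw [Set.mem_iUnion₂]
  exact ⟨(v, s), h5, left_mem_segment ℝ _ _⟩

end Pool.Agent.U151.BX
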