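import Mathlib

/-!
Net content of subsets of the plane: the increasing sets lemma.
-/

set_option autoImplicit false

namespace Pool.Agent.U151.BX

open Set Filter Topology
open scoped ENNReal NNReal

/-- The dyadic cell of level `l` of a point. -/
noncomputable def ix (l : ℕ) (z : ℂ) : ℤ × ℤ := (⌊z.re * 2 ^ l⌋, ⌊z.im * 2 ^ l⌋)

/-- The ancestor at level `l`. -/
def anc (l : ℕ) (q : ℕ × (ℤ × ℤ)) : ℤ × ℤ := (q.2.1 / 2 ^ (q.1 - l), q.2.2 / 2 ^ (q.1 - l))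

theorem floor_aux (x : ℝ) {l l' : ℕ} (h : l ≤ l') : ⌊x * 2 ^ l'⌋ / 2 ^ (l' - l) = ⌊x * 2 ^ l⌋ := by
  have h2 : (0:ℤ) < 2 ^ (l' - l) := by positivity
  have h2r : (0:ℝ) < 2 ^ (l' - l) := by positivity
  have e : x * 2 ^ l' = x * 2 ^ l * 2 ^ (l' - l) := by
    rw [mul_assoc, ← pow_add]
    congr 2
    omega
  symm
  rw [Int.floor_eq_iff]
  have h3 := Int.floor_le (x * 2 ^ l')
  have h4 := Int.lt_floor_add_one (x * 2 ^ l')
  obtain ⟨m, hm⟩ : ∃ m, m = ⌊x * 2 ^ l'⌋ := ⟨_, rfl⟩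
  rw [← hm] at h3 h4 ⊢
  rw [e] at h3 h4
  have h5 : m / 2 ^ (l' - l) * 2 ^ (l' - l) ≤ m := Int.ediv_mul_le _ h2.ne'
  have h6 : m < (m / 2 ^ (l' - l) + 1) * 2 ^ (l' - l) := Int.lt_ediv_add_one_mul_self m h2
  have h5' : ((m / 2 ^ (l' - l) : ℤ) : ℝ) * 2 ^ (l' - l) ≤ m := by exact_mod_cast h5
  have h6' : (m : ℝ) + 1 ≤ (((m / 2 ^ (l' - l) : ℤ) : ℝ) + 1) * 2 ^ (l' - l) := by
    exact_mod_cast h6
  constructor
  · have : ((m / 2 ^ (l' - l) : ℤ) : ℝ) * 2 ^ (l' - l) ≤ x * 2 ^ l * 2 ^ (l' - l) := h5'.trans h3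
    exact le_of_mul_le_mul_right this h2r
  · have : x * 2 ^ l * 2 ^ (l' - l) < (((m / 2 ^ (l' - l) : ℤ) : ℝ) + 1) * 2 ^ (l' - l) :=
      lt_of_lt_of_le h4 h6'
    exact lt_of_mul_lt_mul_right this h2r.le

theorem anc_ix {l l' : ℕ} (h : l ≤ l') (z : ℂ) : anc l (l', ix l' z) = ix l z := by
  unfold anc ix
  simp only
  rw [floor_aux z.re h, floor_aux z.im h]

/-- The union of the cells. -/
def cov (Q : Set (ℕ × (ℤ × ℤ))) : Set ℂ := {z | ∃ l, (l, ix l z) ∈ Q}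

/-- The cost. -/
noncomputable def S (w : ℕ → ℝ≥0∞) (Q : Set (ℕ × (ℤ × ℤ))) : ℝ≥0∞ :=
  ∑' q, Q.indicator (fun q => w q.1) q

/-- The net content. -/
noncomputable def M (w : ℕ → ℝ≥0∞) (E : Set ℂ) : ℝ≥0∞ :=
  ⨅ (Q : Set (ℕ × (ℤ × ℤ))) (_ : E ⊆ cov Q), S w Q

/-- The maximal cells. -/
def mx (Q : Set (ℕ × (ℤ × ℤ))) : Set (ℕ × (ℤ × ℤ)) :=
  {q | q ∈ Q ∧ ∀ l < q.1, (l, anc l q) ∉ Q}

variable {w : ℕ → ℝ≥0∞}

theorem S_mono {A B : Set (ℕ × (ℤ × ℤ))} (h : A ⊆ B) : S w A ≤ S w B :=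
  ENNReal.tsum_le_tsum fun q => indicator_le_indicator_of_subset h (fun _ => zero_le) q

theorem S_union {A B : Set (ℕ × (ℤ × ℤ))} (h : Disjoint A B) : S w (A ∪ B) = S w A + S w B := by
  unfold S
  rw [← ENNReal.tsum_add]
  congr 1
  ext q
  rw [indicator_union_of_disjoint h]

theorem S_union_le (A B : Set (ℕ × (ℤ × ℤ))) : S w (A ∪ B) ≤ S w A + S w B := by
  unfold S
  rw [← ENNReal.tsum_add]
  refine ENNReal.tsum_le_tsum fun q => ?_
  by_cases hA : q ∈ A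
  · rw [indicator_of_mem (mem_union_left B hA), indicator_of_mem hA]
    exact le_self_add
  · by_cases hB : q ∈ B
    · rw [indicator_of_mem (mem_union_right A hB), indicator_of_mem hB]
      exact le_add_self
    · rw [indicator_of_notMem (by simp [hA, hB])]
      exact zero_le

theorem M_le {E : Set ℂ} {Q : Set (ℕ × (ℤ × ℤ))} (h : E ⊆ cov Q) : M w E ≤ S w Q :=
  iInf₂_le Q h

theorem M_mono {E F : Set ℂ} (h : E ⊆ F) : M w E ≤ M w F :=
  le_iInf₂ fun _ hQ => M_le (h.trans hQ)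

theorem mx_sub (Q : Set (ℕ × (ℤ × ℤ))) : mx Q ⊆ Q := fun _ h => h.1

/-- The maximal cell which contains a point. -/
theorem exists_mx {Q : Set (ℕ × (ℤ × ℤ))} {z : ℂ} (hz : z ∈ cov Q) :
    ∃ l, (l, ix l z) ∈ mx Q ∧ ∀ l' < l, (l', ix l' z) ∉ Q := by
  classical
  have hex : ∃ l, (l, ix l z) ∈ Q := hz
  refine ⟨Nat.find hex, ⟨Nat.find_spec hex, fun l hl => ?_⟩, fun l hl => Nat.find_min hex hl⟩
  show (l, anc l (Nat.find hex, ix (Nat.find hex) z)) ∉ Q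
  rw [anc_ix (le_of_lt hl)]
  exact Nat.find_min hex hl

/-- One step. -/
theorem step {U Q : Set (ℕ × (ℤ × ℤ))} {E E' : Set ℂ} (hEE : E ⊆ E') (hU : E ⊆ cov U)
    (hQ : E' ⊆ cov Q) {η : ℝ≥0∞} (hfin : S w (mx U) ≠ ⊤) (hind : S w (mx U) ≤ M w E + η) :
    S w (mx (U ∪ Q)) ≤ S w Q + η := by
  obtain ⟨C, hC⟩ : ∃ C : Set (ℕ × (ℤ × ℤ)), C = {q | q ∈ mx U ∧ ∃ l ≤ q.1, (l, anc l q) ∈ Q} :=
    ⟨_, rfl⟩
  obtain ⟨A, hA⟩ : ∃ A : Set (ℕ × (ℤ × ℤ)), A = mx U \ C := ⟨_, rfl⟩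
  obtain ⟨D, hD⟩ : ∃ D : Set (ℕ × (ℤ × ℤ)), D = {q | q ∈ Q ∧ ∃ l < q.1, (l, anc l q) ∈ U} :=
    ⟨_, rfl⟩
  obtain ⟨B, hB⟩ : ∃ B : Set (ℕ × (ℤ × ℤ)), B = Q \ D := ⟨_, rfl⟩
  have hCU : C ⊆ mx U := by
    rw [hC]
    exact fun q hq => hq.1
  have hDQ : D ⊆ Q := by
    rw [hD]
    exact fun q hq => hq.1
  have e1 : S w (mx U) = S w A + S w C := by
    rw [← S_union (by rw [hA]; exact disjoint_sdiff_left), hA, sdiff_union_of_subset hCU]
  have e2 : S w Q = S w B + S w D := by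
    rw [← S_union (by rw [hB]; exact disjoint_sdiff_left), hB, sdiff_union_of_subset hDQ]
  have hCfin : S w C ≠ ⊤ := ne_top_of_le_ne_top hfin (S_mono hCU)
  -- the cells `C ∪ D` cover `E`
  have hcov : E ⊆ cov (C ∪ D) := by
    intro z hz
    obtain ⟨l, hl1, hl2⟩ := exists_mx (hU hz)
    by_cases h : ∃ l' ≤ l, (l', anc l' (l, ix l z)) ∈ Q
    · refine ⟨l, Or.inl ?_⟩
      rw [hC]
      exact ⟨hl1, h⟩
    · obtain ⟨l2, hl3⟩ := hQ (hEE hz)
      have hlt : l < l2 := by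
        by_contra hcon
        push Not at hcon
        refine h ⟨l2, hcon, ?_⟩
        rw [anc_ix hcon]
        exact hl3
      refine ⟨l2, Or.inr ?_⟩
      rw [hD]
      refine ⟨hl3, l, hlt, ?_⟩
      show (l, anc l (l2, ix l2 z)) ∈ U
      rw [anc_ix hlt.le]
      exact hl1.1
  have h3 : S w A ≤ S w D + η := by
    have h4 : S w A + S w C ≤ S w D + η + S w C := by
      rw [← e1]
      calc S w (mx U) ≤ M w E + η := hind
        _ ≤ (S w C + S w D) + η := by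
          gcongr
          exact (M_le hcov).trans (S_union_le C D)
        _ = S w D + η + S w C := by ring
    exact (ENNReal.add_le_add_iff_right hCfin).1 h4
  have h5 : mx (U ∪ Q) ⊆ A ∪ B := by
    rintro q ⟨hq1, hq2⟩
    have hnU : ∀ l < q.1, (l, anc l q) ∉ U := fun l hl h => hq2 l hl (Or.inl h)
    have hnQ : ∀ l < q.1, (l, anc l q) ∉ Q := fun l hl h => hq2 l hl (Or.inr h)
    by_cases hqQ : q ∈ Q
    · right
      rw [hB]
      refine ⟨hqQ, ?_⟩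
      rw [hD]
      rintro ⟨-, l, hl, h⟩
      exact hnU l hl h
    · left
      rcases hq1 with hq1 | hq1
      · rw [hA]
        refine ⟨⟨hq1, hnU⟩, ?_⟩
        rw [hC]
        rintro ⟨-, l, hl, h⟩
        rcases hl.lt_or_eq with hl | hl
        · exact hnQ l hl h
        · have e : (l, anc l q) = q := by
            subst hl
            unfold anc
            simp
          rw [e] at h
          exact hqQ h
      · exact absurd hq1 hqQ
  calc S w (mx (U ∪ Q)) ≤ S w (A ∪ B) := S_mono h5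
    _ ≤ S w A + S w B := S_union_le A B
    _ ≤ (S w D + η) + S w B := by gcongr
    _ = S w Q + η := by rw [e2]; ring

/-- The increasing sets lemma. -/
theorem M_iUnion {E : ℕ → Set ℂ} (hE : Monotone E) : M w (⋃ n, E n) ≤ ⨆ n, M w (E n) := by
  by_cases hfin : (⨆ n, M w (E n)) = ⊤
  · rw [hfin]
    exact le_top
  refine ENNReal.le_of_forall_pos_le_add fun ε hε _ => ?_
  obtain ⟨ε', hε', hsum⟩ := ENNReal.exists_pos_sum_of_countable
    (ε := (ε : ℝ≥0∞)) (by exact_mod_cast hε.ne') ℕ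
  have hMfin : ∀ n, M w (E n) ≠ ⊤ := fun n => ne_top_of_le_ne_top hfin (le_iSup (fun n => M w (E n)) n)
  have hex : ∀ n, ∃ Q : Set (ℕ × (ℤ × ℤ)), E n ⊆ cov Q ∧ S w Q ≤ M w (E n) + ε' n := by
    intro n
    have h1 : M w (E n) < M w (E n) + ε' n :=
      ENNReal.lt_add_right (hMfin n) (by exact_mod_cast (hε' n).ne')
    unfold M at h1
    rw [iInf_lt_iff] at h1
    obtain ⟨Q, hQ⟩ := h1
    rw [iInf_lt_iff] at hQ
    obtain ⟨hQ1, hQ2⟩ := hQ
    exact ⟨Q, hQ1, hQ2.le⟩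
  choose Q hQ1 hQ2 using hex
  obtain ⟨U, hU⟩ : ∃ U : ℕ → Set (ℕ × (ℤ × ℤ)), U = fun n => {q | ∃ i ≤ n, q ∈ Q i} := ⟨_, rfl⟩
  have hUs : ∀ n, U (n + 1) = U n ∪ Q (n + 1) := by
    intro n
    rw [hU]
    ext q
    constructor
    · rintro ⟨i, hi, hq⟩
      rcases Nat.lt_or_ge i (n + 1) with h | h
      · exact Or.inl ⟨i, by omega, hq⟩
      · have : i = n + 1 := by omega
        rw [this] at hq
        exact Or.inr hq
    · rintro (⟨i, hi, hq⟩ | hq)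
      · exact ⟨i, by omega, hq⟩
      · exact ⟨n + 1, le_rfl, hq⟩
  have hUc : ∀ n, E n ⊆ cov (U n) := by
    intro n z hz
    obtain ⟨l, hl⟩ := hQ1 n hz
    refine ⟨l, ?_⟩
    rw [hU]
    exact ⟨n, le_rfl, hl⟩
  have key : ∀ n, S w (mx (U n)) ≤ M w (E n) + ∑ i ∈ Finset.range (n + 1), (ε' i : ℝ≥0∞) := by
    intro n
    induction n with
    | zero =>
      have e0 : U 0 ⊆ Q 0 := by
        rw [hU]
        rintro q ⟨i, hi, hq⟩
        have : i = 0 := by omega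
        rwa [this] at hq
      refine (S_mono ((mx_sub _).trans e0)).trans ((hQ2 0).trans ?_)
      simp
    | succ n ih =>
      rw [hUs]
      have hf : S w (mx (U n)) ≠ ⊤ := by
        refine ne_top_of_le_ne_top ?_ ih
        exact ENNReal.add_ne_top.2 ⟨hMfin n, (ENNReal.sum_lt_top.2 fun i _ => ENNReal.coe_lt_top).ne⟩
      refine (step (hE (Nat.le_succ n)) (hUc n) (hQ1 (n + 1)) hf ih).trans ?_
      rw [Finset.sum_range_succ _ (n + 1)]
      calc S w (Q (n + 1)) + ∑ i ∈ Finset.range (n + 1), (ε' i : ℝ≥0∞)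
          ≤ (M w (E (n + 1)) + ε' (n + 1)) + ∑ i ∈ Finset.range (n + 1), (ε' i : ℝ≥0∞) := by
            gcongr
            exact hQ2 (n + 1)
        _ = _ := by ring
  have key2 : ∀ n, S w (mx (U n)) ≤ (⨆ n, M w (E n)) + ε := by
    intro n
    refine (key n).trans ?_
    gcongr
    · exact le_iSup (fun n => M w (E n)) n
    · exact (ENNReal.sum_le_tsum _).trans hsum.le
  -- the limit
  obtain ⟨V, hV⟩ : ∃ V : Set (ℕ × (ℤ × ℤ)), V = ⋃ n, U n := ⟨_, rfl⟩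
  have hVc : (⋃ n, E n) ⊆ cov (mx V) := by
    intro z hz
    obtain ⟨n, hn⟩ := mem_iUnion.1 hz
    obtain ⟨l, hl⟩ := hUc n hn
    obtain ⟨l', hl', -⟩ := exists_mx (Q := V) ⟨l, by rw [hV]; exact mem_iUnion.2 ⟨n, hl⟩⟩
    exact ⟨l', hl'⟩
  refine (M_le hVc).trans ?_
  unfold S
  rw [ENNReal.tsum_eq_iSup_sum]
  refine iSup_le fun F => ?_
  have hmonoU : Monotone U := by
    refine monotone_nat_of_le_succ fun n => ?_
    rw [hUs]
    exact subset_union_left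
  have hFn : ∃ n, ∀ q ∈ F, q ∈ mx V → q ∈ mx (U n) := by
    have h1 : ∀ q ∈ F, ∃ n, q ∈ mx V → q ∈ U n := by
      intro q _
      by_cases hq : q ∈ mx V
      · have h2 := hq.1
        rw [hV, mem_iUnion] at h2
        obtain ⟨n, hn⟩ := h2
        exact ⟨n, fun _ => hn⟩
      · exact ⟨0, fun h => absurd h hq⟩
    choose! N hN using h1
    refine ⟨F.sup N, fun q hqF hq => ⟨hmonoU (Finset.le_sup hqF) (hN q hqF hq), fun l hl h => ?_⟩⟩
    refine hq.2 l hl ?_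
    rw [hV]
    exact mem_iUnion.2 ⟨_, h⟩
  obtain ⟨n, hn⟩ := hFn
  calc ∑ q ∈ F, (mx V).indicator (fun q => w q.1) q
      ≤ ∑ q ∈ F, (mx (U n)).indicator (fun q => w q.1) q := by
        refine Finset.sum_le_sum fun q hq => ?_
        by_cases h : q ∈ mx V
        · rw [indicator_of_mem h, indicator_of_mem (hn q hq h)]
        · rw [indicator_of_notMem h]
          exact zero_le
    _ ≤ S w (mx (U n)) := ENNReal.sum_le_tsum _
    _ ≤ _ := key2 n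

end Pool.Agent.U151.BX
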