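import Pool.Agent.U151.BX.Net

/-!
Net content of analytic sets: approximation by compact sets.
-/

set_option autoImplicit false

namespace Pool.Agent.U151.BX

open Set Filter Topology
open scoped ENNReal NNReal

variable {w : ℕ → ℝ≥0∞}

/-- The sequences bounded by `s` in the first `k` places. -/
def N (s : ℕ → ℕ) (k : ℕ) : Set (ℕ → ℕ) := {x | ∀ i < k, x i ≤ s i}

theorem exists_bound (f : (ℕ → ℕ) → ℂ) {c : ℝ≥0∞} (hc : c < M w (range f)) :
    ∃ n : ℕ → ℕ, ∀ k, c < M w (f '' N n k) := by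
  have hstep : ∀ (k : ℕ) (s : ℕ → ℕ), c < M w (f '' N s k) →
      ∃ m, c < M w (f '' N (Function.update s k m) (k + 1)) := by
    intro k s h
    have e : f '' N s k ⊆ ⋃ m : ℕ, f '' N (Function.update s k m) (k + 1) := by
      rintro _ ⟨x, hx, rfl⟩
      refine mem_iUnion.2 ⟨x k, x, fun i hi => ?_, rfl⟩
      by_cases hik : i = k
      · subst hik
        rw [Function.update_self]
      · rw [Function.update_of_ne hik]
        exact hx i (by omega)
    have hmono : Monotone (fun m : ℕ => f '' N (Function.update s k m) (k + 1)) := by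
      intro m m' hm
      refine image_mono fun x hx i hi => ?_
      have h1 := hx i hi
      by_cases hik : i = k
      · subst hik
        rw [Function.update_self] at h1 ⊢
        exact h1.trans hm
      · rw [Function.update_of_ne hik] at h1 ⊢
        exact h1
    have h2 : c < ⨆ m, M w (f '' N (Function.update s k m) (k + 1)) :=
      lt_of_lt_of_le h ((M_mono e).trans (M_iUnion hmono))
    exact lt_iSup_iff.1 h2
  choose! g hg using hstep
  obtain ⟨s, hs0, hs1⟩ : ∃ s : ℕ → (ℕ → ℕ), s 0 = (fun _ => 0) ∧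
      ∀ k, s (k + 1) = Function.update (s k) k (g k (s k)) :=
    ⟨fun k => Nat.rec (fun _ => 0) (fun k t => Function.update t k (g k t)) k, rfl, fun _ => rfl⟩
  have hP : ∀ k, c < M w (f '' N (s k) k) := by
    intro k
    induction k with
    | zero =>
      have e : f '' N (s 0) 0 = range f := by
        rw [← image_univ]
        congr 1
        exact eq_univ_of_forall fun x i hi => absurd hi (Nat.not_lt_zero i)
      rw [e]
      exact hc
    | succ k ih =>
      rw [hs1]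
      exact hg k (s k) ih
  have hst : ∀ k i, i < k → s k i = s (i + 1) i := by
    intro k
    induction k with
    | zero => intro i hi; exact absurd hi (Nat.not_lt_zero i)
    | succ k ih =>
      intro i hi
      rcases Nat.lt_or_ge i k with h | h
      · rw [hs1 k, Function.update_of_ne (by omega)]
        exact ih i h
      · have : i = k := by omega
        rw [this]
  refine ⟨fun i => s (i + 1) i, fun k => ?_⟩
  have e : N (fun i => s (i + 1) i) k = N (s k) k := by
    ext x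
    constructor
    · intro hx i hi
      rw [hst k i hi]
      exact hx i hi
    · intro hx i hi
      have := hx i hi
      rwa [hst k i hi] at this
  rw [e]
  exact hP k

/-- The bounded sequences. -/
def K0 (n : ℕ → ℕ) : Set (ℕ → ℕ) := {x | ∀ i, x i ≤ n i}

theorem isCompact_K0 (n : ℕ → ℕ) : IsCompact (K0 n) := by
  have e : K0 n = Set.pi univ (fun i => Set.Iic (n i)) := by
    ext x
    simp only [K0, mem_ofPred_eq, Set.mem_pi, mem_univ, true_imp_iff, mem_Iic]
  rw [e]
  exact isCompact_univ_pi fun i => (Set.finite_Iic (n i)).isCompact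

/-- An open set which contains the image of the bounded sequences contains the image of a set of
sequences bounded in finitely many places. -/
theorem open_N {f : (ℕ → ℕ) → ℂ} (hf : Continuous f) {n : ℕ → ℕ} {U : Set ℂ} (hU : IsOpen U)
    (h : f '' K0 n ⊆ U) : ∃ k, f '' N n k ⊆ U := by
  by_contra hcon
  push Not at hcon
  have h1 : ∀ k, ∃ x, x ∈ N n k ∧ f x ∉ U := by
    intro k
    obtain ⟨_, ⟨x, hx, rfl⟩, hx2⟩ := not_subset.1 (hcon k)
    exact ⟨x, hx, hx2⟩
  choose x hx1 hx2 using h1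
  obtain ⟨y, hy⟩ : ∃ y : ℕ → (ℕ → ℕ), y = fun k i => min (x k i) (n i) := ⟨_, rfl⟩
  have hyK : ∀ k, y k ∈ K0 n := by
    intro k i
    rw [hy]
    exact min_le_right _ _
  obtain ⟨a, ha, φ, hφ, hlim⟩ := (isCompact_K0 n).tendsto_subseq hyK
  have hlimx : Tendsto (fun k => x (φ k)) atTop (𝓝 a) := by
    rw [tendsto_pi_nhds]
    intro i
    have h2 := (tendsto_pi_nhds.1 hlim) i
    refine h2.congr' ?_
    filter_upwards [hφ.tendsto_atTop.eventually_gt_atTop i] with k hk
    have h3 := hx1 (φ k) i hk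
    show y (φ k) i = x (φ k) i
    rw [hy]
    exact min_eq_left h3
  have h4 : Tendsto (fun k => f (x (φ k))) atTop (𝓝 (f a)) := (hf.tendsto a).comp hlimx
  have h5 : f a ∈ U := h ⟨a, ha, rfl⟩
  obtain ⟨k, hk⟩ := (h4.eventually (hU.mem_nhds h5)).exists
  exact hx2 _ hk

/-- The cells and their neighbours. -/
def nb (Q : Set (ℕ × (ℤ × ℤ))) : Set (ℕ × (ℤ × ℤ)) :=
  {q | ∃ q0 ∈ Q, q.1 = q0.1 ∧ |q.2.1 - q0.2.1| ≤ 1 ∧ |q.2.2 - q0.2.2| ≤ 1}

/-- The cells shifted by `(i, j)`. -/
def sh (t : ℤ × ℤ) (Q : Set (ℕ × (ℤ × ℤ))) : Set (ℕ × (ℤ × ℤ)) :=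
  {q | (q.1, (q.2.1 - t.1, q.2.2 - t.2)) ∈ Q}

theorem S_sh (t : ℤ × ℤ) (Q : Set (ℕ × (ℤ × ℤ))) : S w (sh t Q) = S w Q := by
  classical
  let e : (ℕ × (ℤ × ℤ)) ≃ (ℕ × (ℤ × ℤ)) :=
    { toFun := fun q => (q.1, (q.2.1 - t.1, q.2.2 - t.2))
      invFun := fun q => (q.1, (q.2.1 + t.1, q.2.2 + t.2))
      left_inv := fun q => by ext <;> simp
      right_inv := fun q => by ext <;> simp }
  unfold S
  rw [← e.tsum_eq (fun q => Q.indicator (fun q => w q.1) q)]
  congr 1

theorem S_biUnion {ι : Type*} (F : Finset ι) (A : ι → Set (ℕ × (ℤ × ℤ))) :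
    S w (⋃ i ∈ F, A i) ≤ ∑ i ∈ F, S w (A i) := by
  classical
  induction F using Finset.induction_on with
  | empty =>
    simp only [Finset.notMem_empty, iUnion_of_empty, iUnion_empty, Finset.sum_empty]
    unfold S
    simp
  | insert i F hi ih =>
    rw [Finset.set_biUnion_insert, Finset.sum_insert hi]
    exact (S_union_le _ _).trans (by gcongr)

theorem S_nb (Q : Set (ℕ × (ℤ × ℤ))) : S w (nb Q) ≤ 9 * S w Q := by
  have h1 : nb Q ⊆ ⋃ t ∈ (Finset.Icc (-1 : ℤ) 1 ×ˢ Finset.Icc (-1 : ℤ) 1), sh t Q := by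
    rintro ⟨l, a, b⟩ ⟨⟨l0, a0, b0⟩, hq, h1, h2, h3⟩
    simp only at h1 h2 h3
    subst h1
    rw [abs_le] at h2 h3
    refine mem_iUnion₂.2 ⟨(a - a0, b - b0), ?_, ?_⟩
    · rw [Finset.mem_product, Finset.mem_Icc, Finset.mem_Icc]
      simp only
      omega
    · show (l, (a - (a - a0), b - (b - b0))) ∈ Q
      rw [sub_sub_cancel, sub_sub_cancel]
      exact hq
  refine (S_mono h1).trans ((S_biUnion _ _).trans ?_)
  rw [Finset.sum_congr rfl (fun t _ => S_sh t Q), Finset.sum_const, Finset.card_product,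
    Int.card_Icc, nsmul_eq_mul, show (1 + 1 - (-1) : ℤ).toNat = 3 from rfl]
  norm_num

/-- An open set which contains the cells and is covered by the cells and their neighbours. -/
def op (Q : Set (ℕ × (ℤ × ℤ))) : Set ℂ :=
  ⋃ q ∈ Q, {z : ℂ | |z.re * 2 ^ q.1 - (q.2.1 + 1/2)| < 1 ∧ |z.im * 2 ^ q.1 - (q.2.2 + 1/2)| < 1}

theorem isOpen_op (Q : Set (ℕ × (ℤ × ℤ))) : IsOpen (op Q) := by
  refine isOpen_biUnion fun q _ => ?_
  refine IsOpen.inter ?_ ?_
  · exact isOpen_lt (continuous_abs.comp ((Complex.continuous_re.mul continuous_const).sub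
      continuous_const)) continuous_const
  · exact isOpen_lt (continuous_abs.comp ((Complex.continuous_im.mul continuous_const).sub
      continuous_const)) continuous_const

theorem cov_op (Q : Set (ℕ × (ℤ × ℤ))) : cov Q ⊆ op Q := by
  rintro z ⟨l, hl⟩
  refine mem_iUnion₂.2 ⟨_, hl, ?_⟩
  unfold ix
  simp only [mem_ofPred_eq]
  have h1 := Int.floor_le (z.re * 2 ^ l)
  have h2 := Int.lt_floor_add_one (z.re * 2 ^ l)
  have h3 := Int.floor_le (z.im * 2 ^ l)
  have h4 := Int.lt_floor_add_one (z.im * 2 ^ l)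
  rw [abs_lt, abs_lt]
  refine ⟨⟨?_, ?_⟩, ?_, ?_⟩ <;> linarith

theorem op_cov (Q : Set (ℕ × (ℤ × ℤ))) : op Q ⊆ cov (nb Q) := by
  intro z hz
  obtain ⟨q, hq, h1, h2⟩ := mem_iUnion₂.1 hz
  rw [abs_lt] at h1 h2
  have key : ∀ (x : ℝ) (a : ℤ), -1 < x - (a + 1/2) → x - (a + 1/2) < 1 → |⌊x⌋ - a| ≤ 1 := by
    intro x a g1 g2
    have g3 := Int.floor_le x
    have g4 := Int.lt_floor_add_one x
    have g5 : ((a - 2 : ℤ) : ℝ) < ⌊x⌋ := by push_cast; linarith
    have g6 : ((⌊x⌋ : ℤ) : ℝ) < ((a + 2 : ℤ) : ℝ) := by push_cast; linarith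
    have g7 : a - 2 < ⌊x⌋ := by exact_mod_cast g5
    have g8 : ⌊x⌋ < a + 2 := by exact_mod_cast g6
    rw [abs_le]
    omega
  refine ⟨q.1, q, hq, rfl, ?_, ?_⟩
  · exact key _ _ h1.1 h1.2
  · exact key _ _ h2.1 h2.2

/-- **Capacitability.** -/
theorem exists_compact {f : (ℕ → ℕ) → ℂ} (hf : Continuous f) {c : ℝ≥0∞} (hc : c < M w (range f)) :
    ∃ K ⊆ range f, IsCompact K ∧ c ≤ 9 * M w K := by
  obtain ⟨n, hn⟩ := exists_bound f hc
  refine ⟨f '' K0 n, image_subset_range _ _, (isCompact_K0 n).image hf, ?_⟩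
  unfold M
  rw [ENNReal.mul_iInf_of_ne (by norm_num) (by norm_num)]
  refine le_iInf fun Q => ?_
  rw [ENNReal.mul_iInf_of_ne (by norm_num) (by norm_num)]
  refine le_iInf fun hQ => ?_
  obtain ⟨k, hk⟩ := open_N hf (isOpen_op Q) (hQ.trans (cov_op Q))
  exact (hn k).le.trans ((M_le (hk.trans (op_cov Q))).trans (S_nb Q))

end Pool.Agent.U151.BX
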