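import Pool.Agent.U151.IP.UpK

/-!
Upper bounds for the common points of `k` independent exploration paths in a fixed set, with the
emptiness for sets of Hausdorff measure zero.
-/

set_option autoImplicit false

namespace Pool.Agent.U151.BX

open MeasureTheory TopologicalSpace Filter Topology
open scoped ENNReal NNReal
open H443B (inn iUnion_inn)
open Pool.Agent.U151.IP (com meas_hit hit_pow inter_zero polar)

variable {k : ℕ}

/-- Common points in a fixed set. -/
theorem upK2 (R : H934E.Rect) {δ : ℕ → ℝ} (hδ : ∀ i, 0 < δ i)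
    (hlim : Tendsto δ atTop (𝓝 0)) {μ : ProbabilityMeasure (NonemptyCompacts ℂ)}
    (hμ : Tendsto (fun i => R.law (hδ i)) atTop (𝓝 μ)) (hD : IsOpen R.D) (hk : 1 ≤ k)
    {A : Set ℂ} (hA : A ⊆ R.D) :
    ∀ᵐ K : Fin k → NonemptyCompacts ℂ ∂(Measure.pi (fun _ : Fin k =>
      (μ : Measure (NonemptyCompacts ℂ)))),
      dimH (com K ∩ A) ≤ dimH A - (k : ℝ≥0∞) / 4 ∧
        (μH[(k : ℝ) / 4] A = 0 → com K ∩ A = ∅) := by
  obtain ⟨c, C, -, hC, hh⟩ := H934F.hit74 H985T.st_A H934SL.st_L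
  have hit := (hh R δ hδ hlim μ hμ).2
  have hk0 : (0:ℝ) < (k : ℝ) := by exact_mod_cast (show 0 < k by omega)
  have hα : (0:ℝ) < (k : ℝ) / 4 := by positivity
  have ek : ((k : ℝ≥0∞) / 4) = ENNReal.ofReal ((k : ℝ) / 4) := by
    rw [ENNReal.ofReal_div_of_pos (by norm_num), ENNReal.ofReal_natCast,
      show ENNReal.ofReal 4 = 4 by simp]
  rw [ek]
  set α : ℝ := (k : ℝ) / 4 with hαd
  have hb : ∀ n : ℕ, ∀ z ∈ A ∩ inn R.D n, ∀ r : ℝ, 0 < r → r ≤ 1 / ((n : ℝ) + 1) →
      Measure.pi (fun _ : Fin k => (μ : Measure (NonemptyCompacts ℂ)))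
        (H443B.FS.Hit (com (k := k)) z r)
        ≤ ENNReal.ofReal ((C * ((n : ℝ) + 1) ^ (1/4 : ℝ)) ^ k) * ENNReal.ofReal r ^ α := by
    intro n z hz r hr hr2
    have h1 := hit z r (1 / ((n : ℝ) + 1)) hr hr2 hz.2
    refine (hit_pow h1).trans (le_of_eq ?_)
    have e : C * (r / (1 / ((n : ℝ) + 1))) ^ (1/4 : ℝ) =
        C * ((n : ℝ) + 1) ^ (1/4 : ℝ) * r ^ (1/4 : ℝ) := by
      rw [mul_assoc, ← Real.mul_rpow (by positivity) hr.le]
      congr 2
      field_simp
    rw [e, mul_pow, ENNReal.ofReal_rpow_of_pos hr, ← ENNReal.ofReal_mul (by positivity)]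
    congr 2
    rw [← Real.rpow_natCast, ← Real.rpow_mul hr.le]
    congr 1
    rw [hαd]
    ring
  have hr0 : ∀ n : ℕ, (0 : ℝ) < 1 / ((n : ℝ) + 1) := fun n => by positivity
  have h1 : ∀ᵐ K : Fin k → NonemptyCompacts ℂ ∂(Measure.pi (fun _ : Fin k =>
      (μ : Measure (NonemptyCompacts ℂ)))),
      ∀ (n : ℕ) (s : ℚ), α < (s : ℝ) → dimH A < ENNReal.ofReal s →
        μH[(s : ℝ) - α] (com K ∩ (A ∩ inn R.D n)) = 0 := by
    rw [ae_all_iff]
    intro n
    rw [ae_all_iff]
    intro s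
    by_cases h3 : α < (s : ℝ)
    · by_cases h4 : dimH A < ENNReal.ofReal s
      · have h5 : μH[(s : ℝ)] (A ∩ inn R.D n) = 0 := by
          have h6 : dimH (A ∩ inn R.D n) < ((Real.toNNReal s : ℝ≥0) : ℝ≥0∞) :=
            (dimH_mono Set.inter_subset_left).trans_lt h4
          have h7 := hausdorffMeasure_of_dimH_lt h6
          rwa [Real.coe_toNNReal _ (by linarith)] at h7
        filter_upwards [inter_zero hα (hr0 n) ENNReal.ofReal_ne_top meas_hit (hb n) h3 h5]
          with K hK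
        intro _ _
        exact hK
      · exact Eventually.of_forall fun K _ h => absurd h h4
    · exact Eventually.of_forall fun K h => absurd h h3
  have h2 : ∀ᵐ K : Fin k → NonemptyCompacts ℂ ∂(Measure.pi (fun _ : Fin k =>
      (μ : Measure (NonemptyCompacts ℂ)))),
      ∀ n : ℕ, μH[α] A = 0 → com K ∩ (A ∩ inn R.D n) = ∅ := by
    rw [ae_all_iff]
    intro n
    by_cases h4 : μH[α] A = 0
    · have h5 : μH[α] (A ∩ inn R.D n) = 0 := measure_mono_null Set.inter_subset_left h4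
      filter_upwards [polar hα (hr0 n) ENNReal.ofReal_ne_top (hb n) h5] with K hK
      intro _
      exact hK
    · exact Eventually.of_forall fun K h => absurd h h4
  filter_upwards [h1, h2] with K k1 k2
  have hAU := iUnion_inn hD hA
  have hpol : μH[α] A = 0 → com K ∩ A = ∅ := by
    intro h
    rw [hAU, Set.inter_iUnion]
    exact Set.iUnion_eq_empty.mpr fun n => k2 n h
  refine ⟨?_, hpol⟩
  rcases lt_or_ge (dimH A) (ENNReal.ofReal α) with h | h
  · have h0 : μH[α] A = 0 := by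
      have h6 : dimH A < ((Real.toNNReal α : ℝ≥0) : ℝ≥0∞) := h
      have h7 := hausdorffMeasure_of_dimH_lt h6
      rwa [Real.coe_toNNReal _ hα.le] at h7
    rw [hpol h0, dimH_empty]
    exact zero_le
  · apply ENNReal.le_sub_of_add_le_right ENNReal.ofReal_ne_top
    apply le_of_forall_gt_imp_ge_of_dense
    intro x hx
    obtain ⟨q, -, hq1, hq2⟩ := ENNReal.lt_iff_exists_rat_btwn.mp hx
    have hq4 : α < (q : ℝ) := by
      by_contra hcon
      have h5 : ((Real.toNNReal q : ℝ≥0) : ℝ≥0∞) ≤ ENNReal.ofReal α :=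
        ENNReal.ofReal_le_ofReal (not_lt.mp hcon)
      exact absurd (hq1.trans_le h5) (not_lt.mpr h)
    have hsub : dimH (com K ∩ A) ≤ ENNReal.ofReal ((q : ℝ) - α) := by
      rw [hAU, Set.inter_iUnion, dimH_iUnion]
      apply iSup_le
      intro n
      have h6 := k1 n q hq4 hq1
      apply dimH_le_of_hausdorffMeasure_ne_top (d := Real.toNNReal ((q : ℝ) - α))
      rw [Real.coe_toNNReal _ (by linarith), h6]
      exact ENNReal.zero_ne_top
    calc dimH (com K ∩ A) + ENNReal.ofReal α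
        ≤ ENNReal.ofReal ((q : ℝ) - α) + ENNReal.ofReal α := by gcongr
      _ = ENNReal.ofReal q := by
          rw [← ENNReal.ofReal_add (by linarith) hα.le]
          congr 1
          ring
      _ ≤ x := hq2.le

end Pool.Agent.U151.BX
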